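import Pool.Agent.V8H10.GS.Gold
import Pool.Agent.R498.MP.Gold

/-!
# Every large even number: a prime and an almost prime
-/

set_option autoImplicit false

open Finset Filter Topology

namespace Pool.Agent.V8H10.GS

open Pool.Agent.R498.MP (APN gold_stringsM)

open Classical in
/-- the primes `q < 2 n` such that `2 n - q` has at most `r` prime factors, all at least `n ^ δ` -/
noncomputable def alm (r : ℕ) (δ : ℝ) (n : ℕ) : Finset ℕ :=
  (range (2 * n)).filter fun q => q.Prime ∧ (2 * n - q).primeFactorsList.length ≤ r ∧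
    ∀ l : ℕ, l.Prime → l ∣ 2 * n - q → (n : ℝ) ^ δ ≤ l

theorem alm_many : ∃ (r B : ℕ) (δ : ℝ), 0 < δ ∧ ∃ n0 : ℕ, ∀ n : ℕ, n0 ≤ n →
    ((2 * n : ℕ) : ℝ) ≤ #(alm r δ n) * Real.log ((2 * n : ℕ) : ℝ) ^ B := by
  classical
  obtain ⟨K, B, δ, hδ, h⟩ := gold_stringsM 1 squarefree_one 1
  obtain ⟨r, h⟩ := h 2
  obtain ⟨M0, hM0⟩ := eventually_atTop.mp (h (range K) (by rw [card_range]))
  refine ⟨r, B + 1, δ / 2, by positivity, max M0 30, fun n hn => ?_⟩
  have hn1 : M0 ≤ n := le_trans (le_max_left _ _) hn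
  have hn2 : 30 ≤ n := le_trans (le_max_right _ _) hn
  have hnr : (30 : ℝ) ≤ n := by exact_mod_cast hn2
  obtain ⟨H, hH, hHc, T, hT1, hT2⟩ := hM0 (2 * n) (by omega) (n - 1) (by
    obtain ⟨k, rfl⟩ : ∃ k, n = k + 1 := ⟨n - 1, by omega⟩
    rw [Nat.add_sub_cancel]
    nlinarith) (even_two_mul n) (by omega) 0 (by
    rw [Nat.cast_one]
    exact isCoprime_one_right)
  obtain ⟨h1, hh1⟩ := card_pos.mp (lt_of_lt_of_le one_pos hHc)
  have hsup : h1 ≤ (range K).sup id := le_sup (f := id) (hH hh1)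
  have himg : T.image (fun m => m + h1) ⊆ alm r (δ / 2) n := by
    intro q hq
    rw [mem_image] at hq
    obtain ⟨m, hm, rfl⟩ := hq
    obtain ⟨g1, g2, g3, g4⟩ := hT2 m hm
    unfold alm
    rw [mem_filter, mem_range]
    refine ⟨by omega, (g3 h1 hsup).mpr hh1, (g4 h1 hh1).2.1, fun l hl hld => ?_⟩
    have g5 := (g4 h1 hh1).2.2 l hl hld
    refine le_trans ?_ g5
    have g6 : (n : ℝ) ≤ ((n - 1 : ℕ) : ℝ) ^ 2 := by
      obtain ⟨k, rfl⟩ : ∃ k, n = k + 1 := ⟨n - 1, by omega⟩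
      rw [Nat.add_sub_cancel]
      have : k + 1 ≤ k ^ 2 := by nlinarith
      exact_mod_cast this
    calc (n : ℝ) ^ (δ / 2) ≤ (((n - 1 : ℕ) : ℝ) ^ 2) ^ (δ / 2) :=
          Real.rpow_le_rpow (Nat.cast_nonneg _) g6 (by positivity)
      _ = ((n - 1 : ℕ) : ℝ) ^ δ := by
          rw [← Real.rpow_natCast, ← Real.rpow_mul (Nat.cast_nonneg _)]
          congr 1
          push_cast
          ring
  have hc : #T ≤ #(alm r (δ / 2) n) := by
    rw [← card_image_of_injective T (add_left_injective h1)]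
    exact card_le_card himg
  have hcr : (#T : ℝ) ≤ #(alm r (δ / 2) n) := by exact_mod_cast hc
  have hl : Real.log ((n - 1 : ℕ) : ℝ) ≤ Real.log ((2 * n : ℕ) : ℝ) := by
    apply Real.log_le_log
    · exact_mod_cast (by omega : 0 < n - 1)
    · exact_mod_cast (by omega : n - 1 ≤ 2 * n)
  have hl0 : 0 ≤ Real.log ((n - 1 : ℕ) : ℝ) := Real.log_natCast_nonneg _
  have hl4 : 4 ≤ Real.log ((2 * n : ℕ) : ℝ) := by
    rw [Real.le_log_iff_exp_le (by positivity)]
    have h1 := Real.exp_one_lt_d9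
    have h2 : Real.exp 4 = Real.exp 1 ^ 4 := by rw [← Real.exp_nat_mul]; norm_num
    rw [h2]
    have h3 : Real.exp 1 ^ 4 ≤ (2.7182818286 : ℝ) ^ 4 := pow_le_pow_left₀ (Real.exp_pos 1).le h1.le 4
    refine h3.trans ?_
    push_cast
    refine le_trans ?_ (by linarith : (60 : ℝ) ≤ 2 * n)
    norm_num
  have hm1 : ((n : ℝ)) / 2 ≤ ((n - 1 : ℕ) : ℝ) := by
    rw [Nat.cast_sub (by omega)]
    push_cast
    linarith
  calc ((2 * n : ℕ) : ℝ) ≤ 4 * ((n - 1 : ℕ) : ℝ) := by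
        push_cast
        linarith
    _ ≤ Real.log ((2 * n : ℕ) : ℝ) * (Real.log ((n - 1 : ℕ) : ℝ) ^ B * #T) :=
        mul_le_mul hl4 hT1 (Nat.cast_nonneg _) (by linarith)
    _ ≤ Real.log ((2 * n : ℕ) : ℝ) * (Real.log ((2 * n : ℕ) : ℝ) ^ B * #(alm r (δ / 2) n)) := by
        apply mul_le_mul_of_nonneg_left _ (by linarith)
        apply mul_le_mul (pow_le_pow_left₀ hl0 hl B) hcr (Nat.cast_nonneg _) (by positivity)
    _ = #(alm r (δ / 2) n) * Real.log ((2 * n : ℕ) : ℝ) ^ (B + 1) := by ring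

end Pool.Agent.V8H10.GS
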