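import Pool.Agent.V8H10.GS.Main3
import Pool.Agent.K7.H49.CX.Gold

/-!
# Almost all even numbers: the number of Goldbach representations
-/

set_option autoImplicit false

open Finset Filter Topology

namespace Pool.Agent.V8H10.GS

open Pool.Agent.H560R3.GB (g HL sing)
open Pool.Agent.K7.H49.CX (enJ few)

lemma enJ_one (J : Finset ℕ) (s : ℕ → ℤ) (hs : ∀ a ∈ J, ∀ b ∈ J, s a = s b → a = b) : enJ 1 J s ≤ #J := by
  classical
  unfold enJ
  apply card_le_card_of_injOn (fun q => q.1 0)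
  · intro q hq
    rw [mem_coe, mem_filter, mem_product, Fintype.mem_piFinset, Fintype.mem_piFinset] at hq
    exact hq.1.1 0
  · intro q hq q' hq' he
    rw [mem_coe, mem_filter, mem_product, Fintype.mem_piFinset, Fintype.mem_piFinset] at hq hq'
    have he' : q.1 0 = q'.1 0 := he
    have h1 := hq.2
    have h2 := hq'.2
    rw [Fin.sum_univ_one, Fin.sum_univ_one] at h1 h2
    have h3 : q.1 0 = q.2 0 := hs _ (hq.1.1 0) _ (hq.1.2 0) h1
    have h4 : q'.1 0 = q'.2 0 := hs _ (hq'.1.1 0) _ (hq'.1.2 0) h2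
    ext i
    · rw [Subsingleton.elim i 0, he']
    · rw [Subsingleton.elim i 0, ← h3, ← h4, he']

/-- the primes `q < 2 n` with `2 n - q` prime -/
def gold (n : ℕ) : Finset ℕ := (range (2 * n)).filter fun q => q.Prime ∧ (2 * n - q).Prime

lemma g_le (n : ℕ) : g (2 * n) ≤ #(gold n) := by
  unfold g gold
  apply card_le_card_of_injOn (fun z => z.1)
  · intro z hz
    rw [mem_coe, mem_filter, HasAntidiagonal.mem_antidiagonal] at hz
    obtain ⟨h1, h2, h3⟩ := hz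
    show z.1 ∈ ((range (2 * n)).filter fun q => q.Prime ∧ (2 * n - q).Prime : Finset ℕ)
    rw [mem_filter, mem_range]
    have h4 := h3.two_le
    have h5 : 2 * n - z.1 = z.2 := by omega
    refine ⟨by omega, h2, ?_⟩
    rw [h5]
    exact h3
  · intro z hz z' hz' he
    rw [mem_coe, mem_filter, HasAntidiagonal.mem_antidiagonal] at hz hz'
    have he' : z.1 = z'.1 := he
    have h1 := hz.1
    have h2 := hz'.1
    exact Prod.ext he' (by omega)

lemma good_gold {n : ℕ} (hn : 2 ≤ n) (h : Pool.Agent.W93.GB.Good (1 / 2) (2 * n)) :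
    (n : ℝ) ≤ #(gold n) * Real.log ((2 * n : ℕ) : ℝ) ^ 2 := by
  have h1 := h.1
  have h2 : (g (2 * n) : ℝ) ≤ #(gold n) := by exact_mod_cast g_le n
  have h3 := Pool.Agent.W93.GB.one_le_sing (2 * n)
  have hl : 0 < Real.log ((2 * n : ℕ) : ℝ) := Real.log_pos (by exact_mod_cast (by omega : 1 < 2 * n))
  have h4 : HL (2 * n) = sing (2 * n) * (((2 * n : ℕ) : ℝ) / Real.log ((2 * n : ℕ) : ℝ) ^ 2) := rfl
  have h5 : ((2 * n : ℕ) : ℝ) / Real.log ((2 * n : ℕ) : ℝ) ^ 2 ≤ HL (2 * n) := by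
    rw [h4]
    have : 0 ≤ ((2 * n : ℕ) : ℝ) / Real.log ((2 * n : ℕ) : ℝ) ^ 2 := by positivity
    nlinarith
  rw [abs_le] at h1
  have h6 : ((2 * n : ℕ) : ℝ) / Real.log ((2 * n : ℕ) : ℝ) ^ 2 / 2 ≤ #(gold n) := by
    linarith [h1.1]
  have h7 : ((2 * n : ℕ) : ℝ) / Real.log ((2 * n : ℕ) : ℝ) ^ 2 / 2 = n / Real.log ((2 * n : ℕ) : ℝ) ^ 2 := by
    push_cast
    field_simp
  rw [h7, div_le_iff₀ (by positivity)] at h6
  exact h6

open Classical in
/-- almost all `n` have at least `n / log² (2 n)` representations -/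
theorem gold_many (A : ℕ) : ∃ N0 : ℕ, ∀ N : ℕ, N0 ≤ N →
    (#((Icc 1 N).filter (fun n : ℕ => ¬ ((n : ℝ) ≤ #(gold n) * Real.log ((2 * n : ℕ) : ℝ) ^ 2))) : ℝ) ≤
      N / Real.log N ^ A + 1 := by
  obtain ⟨N1, h⟩ := few 1 1 A (le_refl 1) (1 / 2) (by norm_num)
  refine ⟨max N1 10, fun N hN => ?_⟩
  have hN1 : N1 ≤ N := le_trans (le_max_left _ _) hN
  have hN10 : 10 ≤ N := le_trans (le_max_right _ _) hN
  have hNr : (10 : ℝ) ≤ N := by exact_mod_cast hN10
  have hlog : 2 ≤ Real.log ((2 * N : ℕ) : ℝ) := by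
    rw [Real.le_log_iff_exp_le (by positivity)]
    have h1 := Real.exp_one_lt_d9
    have h2 : Real.exp 2 = Real.exp 1 ^ 2 := by rw [← Real.exp_nat_mul]; norm_num
    rw [h2]
    push_cast
    have h3 := Real.exp_pos 1
    nlinarith
  set T := (Icc 1 N).filter (fun n : ℕ => ¬ Pool.Agent.W93.GB.Good (1 / 2) (2 * n)) with hT
  have h1 := h (2 * N) (by omega) N (Icc 1 N) (fun m => 2 * m) (by rw [Nat.card_Icc]; omega)
    (fun m hm => by rw [mem_Icc] at hm; omega) ?_ T (filter_subset _ _)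
    (fun m hm => ⟨dvd_mul_right 2 m, (mem_filter.mp hm).2⟩)
  · have hsub : (Icc 1 N).filter (fun n : ℕ => ¬ ((n : ℝ) ≤ #(gold n) * Real.log ((2 * n : ℕ) : ℝ) ^ 2)) ⊆ insert 1 T := by
      intro n hn
      rw [mem_filter, mem_Icc] at hn
      rw [mem_insert]
      by_cases h1 : n = 1
      · exact Or.inl h1
      · right
        rw [hT, mem_filter, mem_Icc]
        exact ⟨hn.1, fun hg => hn.2 (good_gold (by omega) hg)⟩
    have h2 : (#((Icc 1 N).filter (fun n : ℕ => ¬ ((n : ℝ) ≤ #(gold n) * Real.log ((2 * n : ℕ) : ℝ) ^ 2))) : ℝ) ≤ #T + 1 := by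
      have := (card_le_card hsub).trans (card_insert_le _ _)
      exact_mod_cast this
    refine h2.trans (add_le_add (h1.trans ?_) le_rfl)
    apply div_le_div_of_nonneg_left (Nat.cast_nonneg _)
    · have : 0 < Real.log N := Real.log_pos (by linarith)
      positivity
    · apply pow_le_pow_left₀ (Real.log_natCast_nonneg N)
      apply Real.log_le_log (by linarith)
      push_cast
      linarith
  · have h2 : enJ 1 (Icc 1 N) (fun m => ((2 * m : ℕ) : ℤ)) ≤ N := by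
      refine (enJ_one _ _ ?_).trans ?_
      · intro a _ b _ hab
        have hab' : ((2 * a : ℕ) : ℤ) = ((2 * b : ℕ) : ℤ) := hab
        have : 2 * a = 2 * b := by exact_mod_cast hab'
        omega
      · rw [Nat.card_Icc]
        omega
    have h3 : (enJ 1 (Icc 1 N) (fun m => ((2 * m : ℕ) : ℤ)) : ℝ) ≤ N := by exact_mod_cast h2
    have h4 : (enJ 1 (Icc 1 N) (fun m => ((2 * m : ℕ) : ℤ)) : ℝ) * ((2 * N : ℕ) : ℝ) ≤ N * (2 * N) := by
      push_cast at h3 ⊢
      exact mul_le_mul_of_nonneg_right h3 (by positivity)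
    refine h4.trans ?_
    rw [pow_one]
    have h5 : (N : ℝ) ^ (2 * 1) = N * N := by ring
    rw [h5]
    have h6 : (0 : ℝ) ≤ N * N := by positivity
    nlinarith

open Classical in
/-- **Almost all even numbers.** -/
theorem main_gold : ∃ c : ℝ, 0 < c ∧
    (∀ B : ℕ, ∃ C x0 : ℕ, ∀ x : ℕ, x0 ≤ x → ∀ Q : Finset ℕ, Q ⊆ Icc 1 x →
    (x : ℝ) ≤ #Q * Real.log x ^ B → ∀ h0 H : ℕ, h0 ≤ x → (x : ℝ) ^ (1 / 3 : ℝ) * Real.log x ^ C ≤ H → H ≤ x →
      c * H / Real.log (Real.log (Real.log x)) ≤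
        #((Ioc h0 (h0 + H)).filter (fun h => Even h ∧ c * #Q / Real.log x ≤ cnt Q h))) ∧
    (∃ C : ℕ, ∀ A : ℕ, ∃ N0 : ℕ, ∀ N : ℕ, N0 ≤ N →
      (#((Icc 1 N).filter (fun n : ℕ => ¬ ((n : ℝ) ≤ #(gold n) * Real.log ((2 * n : ℕ) : ℝ) ^ 2 ∧
        ∀ h0 H : ℕ, h0 ≤ 2 * n → (((2 * n : ℕ) : ℝ)) ^ (1 / 3 : ℝ) * Real.log ((2 * n : ℕ) : ℝ) ^ C ≤ H → H ≤ 2 * n →
      c * H / Real.log (Real.log (Real.log ((2 * n : ℕ) : ℝ))) ≤
        #((Ioc h0 (h0 + H)).filter (fun h => Even h ∧ c * #(gold n) / Real.log ((2 * n : ℕ) : ℝ) ≤ cnt (gold n) h))))) : ℝ) ≤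
      N / Real.log N ^ A) := by
  obtain ⟨c, hc, hmain⟩ := main_sets
  refine ⟨c, hc, hmain, ?_⟩
  obtain ⟨C, x0, h3⟩ := hmain 3
  refine ⟨C, fun A => ?_⟩
  obtain ⟨N0, hN0⟩ := gold_many (A + 1)
  obtain ⟨N2, hN2⟩ := ev_nat (fun x => 2 ≤ Real.log x ∧ ((max x0 10 : ℕ) : ℝ) + 1 ≤ 1 / 2 * (x / Real.log x ^ A)) (by
    refine (Real.tendsto_log_atTop.eventually (eventually_ge_atTop 2)).and ?_
    have h1 := (isLittleO_log_rpow_rpow_atTop (A : ℝ) (by norm_num : (0 : ℝ) < 1 / 2)).bound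
      (by norm_num : (0 : ℝ) < 1)
    have h2 := (tendsto_rpow_atTop (by norm_num : (0 : ℝ) < 1 / 2)).eventually_ge_atTop
      (2 * (((max x0 10 : ℕ) : ℝ) + 1))
    filter_upwards [h1, h2, eventually_gt_atTop (1 : ℝ), Real.tendsto_log_atTop.eventually (eventually_ge_atTop (1 : ℝ))]
      with x h1 h2 h3 h4
    have hx0 : 0 < x := by linarith
    rw [Real.rpow_natCast, Real.norm_of_nonneg (by positivity), Real.norm_of_nonneg (by positivity), one_mul] at h1
    have hl : 0 < Real.log x ^ A := by positivity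
    have h5 : x ^ (1 / 2 : ℝ) ≤ x / Real.log x ^ A := by
      rw [le_div_iff₀ hl]
      calc x ^ (1 / 2 : ℝ) * Real.log x ^ A ≤ x ^ (1 / 2 : ℝ) * x ^ (1 / 2 : ℝ) :=
            mul_le_mul_of_nonneg_left h1 (by positivity)
        _ = x := by rw [← Real.rpow_add hx0]; norm_num
    linarith)
  refine ⟨max N0 N2, fun N hN => ?_⟩
  have e1 := hN0 N (le_trans (le_max_left _ _) hN)
  obtain ⟨e2, e3⟩ := hN2 N (le_trans (le_max_right _ _) hN)
  set M : ℕ := max x0 10 with hM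
  set P1 : ℕ → Prop := fun n => (n : ℝ) ≤ #(gold n) * Real.log ((2 * n : ℕ) : ℝ) ^ 2 with hP1
  set FF := (Icc 1 N).filter (fun n : ℕ => ¬ ((n : ℝ) ≤ #(gold n) * Real.log ((2 * n : ℕ) : ℝ) ^ 2 ∧
        ∀ h0 H : ℕ, h0 ≤ 2 * n → (((2 * n : ℕ) : ℝ)) ^ (1 / 3 : ℝ) * Real.log ((2 * n : ℕ) : ℝ) ^ C ≤ H → H ≤ 2 * n →
      c * H / Real.log (Real.log (Real.log ((2 * n : ℕ) : ℝ))) ≤
        #((Ioc h0 (h0 + H)).filter (fun h => Even h ∧ c * #(gold n) / Real.log ((2 * n : ℕ) : ℝ) ≤ cnt (gold n) h)))) with hFF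
  have hsub : FF ⊆ (Icc 1 N).filter (fun n : ℕ => ¬ P1 n) ∪ Icc 1 M := by
    intro n hn
    rw [mem_filter] at hn
    rw [mem_union, mem_filter]
    by_cases hnM : n ≤ M
    · exact Or.inr (mem_Icc.mpr ⟨(mem_Icc.mp hn.1).1, hnM⟩)
    · left
      refine ⟨hn.1, fun hP => hn.2 ⟨hP, ?_⟩⟩
      have hx0n : x0 ≤ 2 * n := by
        have : x0 ≤ M := le_max_left _ _
        omega
      have h10 : 10 ≤ n := by
        have : 10 ≤ M := le_max_right _ _
        omega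
      refine h3 (2 * n) hx0n (gold n) ?_ ?_
      · intro q hq
        unfold gold at hq
        rw [mem_filter, mem_range] at hq
        rw [mem_Icc]
        exact ⟨hq.2.1.one_lt.le, by omega⟩
      · have hP' : (n : ℝ) ≤ #(gold n) * Real.log ((2 * n : ℕ) : ℝ) ^ 2 := hP
        have hl2 : 2 ≤ Real.log ((2 * n : ℕ) : ℝ) := by
          rw [Real.le_log_iff_exp_le (by positivity)]
          have h1 := Real.exp_one_lt_d9
          have h2 : Real.exp 2 = Real.exp 1 ^ 2 := by rw [← Real.exp_nat_mul]; norm_num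
          rw [h2]
          push_cast
          have h3 := Real.exp_pos 1
          have h4 : (10 : ℝ) ≤ n := by exact_mod_cast h10
          nlinarith
        have h6 : (#(gold n) : ℝ) * Real.log ((2 * n : ℕ) : ℝ) ^ 3 =
            (#(gold n) * Real.log ((2 * n : ℕ) : ℝ) ^ 2) * Real.log ((2 * n : ℕ) : ℝ) := by ring
        rw [h6]
        have h7 : (0 : ℝ) ≤ n := Nat.cast_nonneg _
        push_cast at *
        nlinarith
  have h4 := (card_le_card hsub).trans (card_union_le _ _)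
  have h5 : #(Icc 1 M) = M := by rw [Nat.card_Icc]; omega
  rw [h5] at h4
  have h6 : (#FF : ℝ) ≤ (#((Icc 1 N).filter (fun n : ℕ => ¬ P1 n)) : ℝ) + (M : ℝ) := by exact_mod_cast h4
  refine h6.trans ?_
  have h7 : (N : ℝ) / Real.log N ^ (A + 1) ≤ 1 / 2 * (N / Real.log N ^ A) := by
    have hl : 0 < Real.log N := by linarith
    rw [pow_succ, ← div_div]
    rw [div_le_iff₀ hl]
    have : 0 ≤ (N : ℝ) / Real.log N ^ A := by positivity
    nlinarith
  linarith

end Pool.Agent.V8H10.GS
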