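import Pool.Agent.V8H10.GS.Win3
import Pool.Agent.V8H10.GS.Pair
import Pool.Agent.H197R2.PG4

/-!
# Shifts `h` such that `p_{q+2} + h` is prime for many `q` of a sparse set
-/

set_option autoImplicit false

open Finset Filter Topology

namespace Pool.Agent.V8H10.GS

open Pool.Agent.H197R2.PG (gg one_le_gg pair_avg)

/-- the prime `p_{q+2}` -/
noncomputable def pr (q : ℕ) : ℕ := Nat.nth Nat.Prime (q + 1)

lemma pr_prime (q : ℕ) : (pr q).Prime := Nat.prime_nth_prime _

lemma pr_mono {a b : ℕ} (h : a < b) : pr a < pr b :=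
  Nat.nth_strictMono Nat.infinite_setOfPred_prime (by omega)

lemma pr_inj {a b : ℕ} (h : pr a = pr b) : a = b := by
  rcases lt_trichotomy a b with h1 | h1 | h1
  · have := pr_mono h1; omega
  · exact h1
  · have := pr_mono h1; omega

lemma pr_ge (q : ℕ) : q + 3 ≤ pr q := by
  have := Nat.add_two_le_nth_prime (q + 1)
  unfold pr
  omega

/-- the bound for the `K`-th prime -/
theorem nth_le {K : ℕ} (hK : 6 ≤ K) : (Nat.nth Nat.Prime K : ℝ) ≤ 9 * K * Real.log K := by
  set n := Nat.nth Nat.Prime K with hn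
  have hnp : n.Prime := Nat.prime_nth_prime K
  have hnK : K + 2 ≤ n := Nat.add_two_le_nth_prime K
  have hpi : Nat.primeCounting n = K + 1 := by
    unfold Nat.primeCounting Nat.primeCounting'
    rw [Nat.count_succ, if_pos hnp, hn, Nat.count_nth_of_infinite Nat.infinite_setOfPred_prime]
  have h1 := Chebyshev.psi_le_primeCounting_mul_log n
  have h2 := Chebyshev.psi_ge n
  rw [hpi] at h1
  push_cast at h1
  have hKr : (6 : ℝ) ≤ K := by exact_mod_cast hK
  have hnr : (8 : ℝ) ≤ n := by exact_mod_cast (by omega : 8 ≤ n)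
  have hlog2 := Real.log_two_gt_d9
  have hln : 0 < Real.log n := Real.log_pos (by linarith)
  have h3 : Real.log (n + 1) ≤ 2 * Real.log n := by
    rw [← Real.log_rpow (by linarith), ← Nat.cast_ofNat (n := 2)]
    rw [Real.rpow_natCast]
    exact Real.log_le_log (by linarith) (by nlinarith)
  have h4 : (n : ℝ) * Real.log 2 ≤ (K + 3) * Real.log n := by linarith
  have h5 : (n : ℝ) * 0.69 ≤ (K + 3) * Real.log n := le_trans (by nlinarith) h4
  set t := Real.sqrt n with ht
  have htt : t * t = n := Real.mul_self_sqrt (by linarith)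
  have ht0 : 0 < t := Real.sqrt_pos.2 (by linarith)
  have h6 : Real.log n = 2 * Real.log t := by
    rw [← htt, Real.log_mul ht0.ne' ht0.ne']; ring
  have h7 : Real.log t ≤ t := by
    have := Real.log_le_sub_one_of_pos ht0; linarith
  have h8 : t ≤ 3 * (K + 3) := by
    by_contra hcon
    push Not at hcon
    have : t * t * 0.69 ≤ (K + 3) * (2 * t) := by
      rw [htt]
      refine h5.trans ?_
      rw [h6]
      nlinarith
    nlinarith
  have h9 : Real.log n ≤ 4 * Real.log K := by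
    have e1 : Real.log t ≤ Real.log (K * K) := Real.log_le_log ht0 (by nlinarith)
    rw [Real.log_mul (by linarith) (by linarith)] at e1
    rw [h6]; linarith
  have hlK : 0 < Real.log K := Real.log_pos (by linarith)
  have h10 : (n : ℝ) * 0.69 ≤ (K + 3) * (4 * Real.log K) := h5.trans (by nlinarith)
  nlinarith [mul_pos (by linarith : (0:ℝ) < K) hlK, mul_nonneg (by linarith : (0:ℝ) ≤ K - 6) hlK.le]

lemma pr_le {x : ℕ} (hx : 10 ≤ Real.log x) (q : ℕ) (hq : q ≤ x) : (pr q : ℝ) ≤ 20 * x * Real.log x := by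
  have hx0 : (0 : ℝ) < x := by
    by_contra h
    have : (x : ℝ) = 0 := le_antisymm (not_lt.mp h) (Nat.cast_nonneg _)
    rw [this, Real.log_zero] at hx
    linarith
  have hx10 : (10 : ℝ) ≤ x := by
    have := Real.log_le_sub_one_of_pos hx0
    linarith
  have hxn : 10 ≤ x := by exact_mod_cast hx10
  have h1 : pr q ≤ pr x := by
    rcases Nat.lt_or_ge q x with h | h
    · exact (pr_mono h).le
    · have : q = x := le_antisymm hq h
      rw [this]
  have h2 := nth_le (K := x + 1) (by omega)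
  have h3 : (pr q : ℝ) ≤ pr x := by exact_mod_cast h1
  refine h3.trans (h2.trans ?_)
  push_cast
  have h4 : Real.log (x + 1) ≤ Real.log x + 1 / 10 := by
    have h5 : (x : ℝ) + 1 = x * (1 + 1 / x) := by field_simp
    rw [h5, Real.log_mul (by positivity) (by positivity)]
    have h6 : Real.log (1 + 1 / (x : ℝ)) ≤ 1 / x := by
      have := Real.log_le_sub_one_of_pos (show (0 : ℝ) < 1 + 1 / x by positivity)
      linarith
    have h7 : 1 / (x : ℝ) ≤ 1 / 10 := one_div_le_one_div_of_le (by norm_num) hx10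
    linarith
  have h5 : (9 : ℝ) * (x + 1) * Real.log (x + 1) ≤ 9 * (x + 1) * (Real.log x + 1 / 10) :=
    mul_le_mul_of_nonneg_left h4 (by positivity)
  refine h5.trans ?_
  nlinarith

/-- shifting a window -/
lemma card_shift (a h0 H : ℕ) (P : ℕ → Prop) [DecidablePred P] :
    #((Ioc h0 (h0 + H)).filter (fun h => P (a + h))) = #((Ioc (a + h0) (a + h0 + H)).filter P) := by
  refine card_bij (fun h _ => a + h) ?_ ?_ ?_
  · intro h hh
    rw [mem_filter, mem_Ioc] at hh ⊢
    exact ⟨⟨by omega, by omega⟩, hh.2⟩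
  · intro h _ h' _ e
    omega
  · intro n hn
    rw [mem_filter, mem_Ioc] at hn
    refine ⟨n - a, ?_, by omega⟩
    rw [mem_filter, mem_Ioc]
    refine ⟨⟨by omega, by omega⟩, ?_⟩
    have : a + (n - a) = n := by omega
    rw [this]
    exact hn.2

lemma pair_count (C : ℝ) (u0 : ℕ)
    (hs : ∀ h a u : ℕ, 0 < h → u0 ≤ u → 2 * (h : ℝ) ≤ (u : ℝ) ^ 4 →
      (((Finset.Ioc a (a + u)).filter (fun n => n.Prime ∧ (n + h).Prime)).card : ℝ) ≤
      C * gg (2 * h) * u / Real.log u ^ 2) {a b h0 H : ℕ} (hab : a ≠ b) (hH : u0 ≤ H)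
    (ha : 2 * (a : ℝ) ≤ (H : ℝ) ^ 4) (hb : 2 * (b : ℝ) ≤ (H : ℝ) ^ 4) :
    (#((Ioc h0 (h0 + H)).filter (fun h => (a + h).Prime ∧ (b + h).Prime)) : ℝ) ≤
      C * gg (2 * Nat.dist a b) * H / Real.log H ^ 2 := by
  have key : ∀ a b : ℕ, a < b → 2 * (b : ℝ) ≤ (H : ℝ) ^ 4 →
      (#((Ioc h0 (h0 + H)).filter (fun h => (a + h).Prime ∧ (b + h).Prime)) : ℝ) ≤
      C * gg (2 * (b - a)) * H / Real.log H ^ 2 := by
    intro a b hab hb
    have e : (Ioc h0 (h0 + H)).filter (fun h => (a + h).Prime ∧ (b + h).Prime) =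
        (Ioc h0 (h0 + H)).filter (fun h => (a + h).Prime ∧ (a + h + (b - a)).Prime) := by
      refine filter_congr fun h _ => ?_
      have : a + h + (b - a) = b + h := by omega
      rw [this]
    have e2 := card_shift a h0 H (fun n => n.Prime ∧ (n + (b - a)).Prime)
    rw [e]
    refine le_trans (le_of_eq (congrArg _ e2)) ?_
    refine hs (b - a) (a + h0) H (by omega) hH ?_
    have : ((b - a : ℕ) : ℝ) ≤ b := by exact_mod_cast Nat.sub_le _ _
    linarith
  rcases Nat.lt_or_ge a b with h | h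
  · rw [Nat.dist_eq_sub_of_le h.le]
    exact key a b h hb
  · have h' : b < a := lt_of_le_of_ne h (Ne.symm hab)
    rw [Nat.dist_comm, Nat.dist_eq_sub_of_le h'.le]
    have e : (Ioc h0 (h0 + H)).filter (fun h => (a + h).Prime ∧ (b + h).Prime) =
        (Ioc h0 (h0 + H)).filter (fun h => (b + h).Prime ∧ (a + h).Prime) :=
      filter_congr fun h _ => and_comm
    rw [e]
    exact key b a h' ha

/-- the number of the `q ∈ Q` with `p_{q+2} + h` prime -/
noncomputable def cnt (Q : Finset ℕ) (h : ℕ) : ℕ := #(Q.filter fun q => Nat.Prime (Nat.nth Nat.Prime (q + 1) + h))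

lemma cnt_real (Q : Finset ℕ) (h : ℕ) : (cnt Q h : ℝ) = ∑ q ∈ Q, (if (pr q + h).Prime then (1 : ℝ) else 0) := by
  unfold cnt pr
  rw [sum_boole]

lemma sum_cnt (Q : Finset ℕ) (h0 H : ℕ) :
    ∑ h ∈ Ioc h0 (h0 + H), (cnt Q h : ℝ) = ∑ q ∈ Q, (wp (pr q + h0) H : ℝ) := by
  simp_rw [cnt_real]
  rw [sum_comm]
  refine sum_congr rfl fun q _ => ?_
  rw [sum_boole]
  have := card_shift (pr q) h0 H Nat.Prime
  unfold wp
  exact_mod_cast this

lemma sum_cnt_sq (Q : Finset ℕ) (h0 H : ℕ) :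
    ∑ h ∈ Ioc h0 (h0 + H), (cnt Q h : ℝ) ^ 2 = ∑ q ∈ Q, (wp (pr q + h0) H : ℝ) +
      ∑ z ∈ Q.offDiag, (#((Ioc h0 (h0 + H)).filter (fun h => (pr z.1 + h).Prime ∧ (pr z.2 + h).Prime)) : ℝ) := by
  classical
  have h1 : ∀ h : ℕ, (cnt Q h : ℝ) ^ 2 = ∑ z ∈ Q ×ˢ Q,
      (if (pr z.1 + h).Prime ∧ (pr z.2 + h).Prime then (1 : ℝ) else 0) := by
    intro h
    rw [cnt_real, sq, sum_mul_sum, sum_product]
    refine sum_congr rfl fun a _ => sum_congr rfl fun b _ => ?_
    by_cases ha : (pr a + h).Prime <;> by_cases hb : (pr b + h).Prime <;> simp [ha, hb]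
  simp_rw [h1]
  rw [sum_comm]
  have h2 : ∀ z : ℕ × ℕ, ∑ h ∈ Ioc h0 (h0 + H), (if (pr z.1 + h).Prime ∧ (pr z.2 + h).Prime then (1 : ℝ) else 0) =
      (#((Ioc h0 (h0 + H)).filter (fun h => (pr z.1 + h).Prime ∧ (pr z.2 + h).Prime)) : ℝ) := by
    intro z
    rw [sum_boole]
  simp_rw [h2]
  rw [← diag_union_offDiag, sum_union (disjoint_diag_offDiag Q), sum_diag]
  congr 1
  refine sum_congr rfl fun q _ => ?_
  simp only [and_self]
  have := card_shift (pr q) h0 H Nat.Prime
  unfold wp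
  exact_mod_cast this

lemma wp_le (m H : ℕ) : wp m H ≤ H := by
  unfold wp
  refine (card_filter_le _ _).trans ?_
  rw [Nat.card_Ioc]
  omega

lemma odd_shift {q h : ℕ} (hp : (pr q + h).Prime) : Even h := by
  have h1 : 3 ≤ pr q := by have := pr_ge q; omega
  have h2 : Odd (pr q) := (pr_prime q).odd_of_ne_two (by omega)
  have h3 : Odd (pr q + h) := hp.odd_of_ne_two (by omega)
  rw [Nat.odd_add] at h3
  exact h3.mp h2

end Pool.Agent.V8H10.GS
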