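import Pool.Agent.V8H10.GS.Main

/-!
# The theorem for sparse sets of indices and short intervals of shifts
-/

set_option autoImplicit false

open Finset Filter Topology

namespace Pool.Agent.V8H10.GS

open Pool.Agent.H197R2.PG (gg one_le_gg pair_avg)

lemma ev_third (u : ℝ) : ∃ x0 : ℕ, ∀ x : ℕ, x0 ≤ x → u ≤ (x : ℝ) ^ (1 / 3 : ℝ) :=
  ev_nat (fun x => u ≤ x ^ (1 / 3 : ℝ)) ((tendsto_rpow_atTop (by norm_num : (0 : ℝ) < 1 / 3)).eventually_ge_atTop u)

/-- the first moment -/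
theorem first_moment (B : ℕ) : ∃ C x0 : ℕ, ∀ x : ℕ, x0 ≤ x → ∀ Q : Finset ℕ, Q ⊆ Icc 1 x →
    (x : ℝ) ≤ #Q * Real.log x ^ B → ∀ h0 H : ℕ, h0 ≤ 2 * x → (x : ℝ) ^ (1 / 3 : ℝ) * Real.log x ^ C ≤ H →
    (H : ℝ) ≤ (x : ℝ) ^ (9 / 10 : ℝ) → ∃ Q1 ⊆ Q, (#Q : ℝ) / 2 ≤ #Q1 ∧
      ∀ q ∈ Q1, (H : ℝ) ≤ 32 * Real.log x * wp (pr q + h0) H := by
  classical
  obtain ⟨C, x1, hbad⟩ := bad_total B
  obtain ⟨x0, hx01, hf⟩ := ev_facts B 1000 4
  refine ⟨C, max x0 x1, fun x hx Q hQ hQc h0 H hh0 hH1 hH2 => ?_⟩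
  have hb := hbad x (le_trans (le_max_right _ _) hx) H hH1 hH2
  obtain ⟨f1, f2, f3⟩ := hf x (le_trans (le_max_left _ _) hx)
  have hx1 : 1 ≤ x := le_trans hx01 (le_trans (le_max_left _ _) hx)
  have hxr : (0 : ℝ) < x := by exact_mod_cast hx1
  set L := Real.log x with hL
  set X0 := ⌊(x : ℝ) / L ^ (B + 1)⌋₊ with hX0
  set Z := ⌊22 * (x : ℝ) * L⌋₊ with hZ
  have hLB : 0 < L ^ B := by positivity
  set Q1 := Q.filter (fun q => X0 < pr q + h0 ∧ ¬ Bad (2 * L) H (pr q + h0)) with hQ1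
  set R1 := Q.filter (fun q => pr q + h0 ≤ X0) with hR1
  set R2 := Q.filter (fun q => X0 < pr q + h0 ∧ Bad (2 * L) H (pr q + h0)) with hR2
  have hcov : Q ⊆ Q1 ∪ (R1 ∪ R2) := by
    intro q hq
    rw [mem_union, mem_union]
    by_cases h1 : pr q + h0 ≤ X0
    · right; left
      exact mem_filter.mpr ⟨hq, h1⟩
    · by_cases h2 : Bad (2 * L) H (pr q + h0)
      · right; right
        exact mem_filter.mpr ⟨hq, not_le.mp h1, h2⟩
      · left
        exact mem_filter.mpr ⟨hq, not_le.mp h1, h2⟩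
  have hc1 : #Q ≤ #Q1 + (#R1 + #R2) :=
    (card_le_card hcov).trans ((card_union_le _ _).trans (Nat.add_le_add_left (card_union_le _ _) _))
  have hinj : ∀ s : Finset ℕ, Set.InjOn (fun q => pr q + h0) (s : Set ℕ) := by
    intro s a _ b _ hab
    exact pr_inj (Nat.add_right_cancel hab)
  have hR1c : #R1 ≤ X0 := by
    have h1 : R1.image (fun q => pr q + h0) ⊆ Icc 1 X0 := by
      intro m hm
      rw [mem_image] at hm
      obtain ⟨q, hq, rfl⟩ := hm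
      rw [mem_Icc]
      have := pr_ge q
      exact ⟨by omega, (mem_filter.mp hq).2⟩
    have h2 := card_le_card h1
    rw [card_image_of_injOn (hinj R1), Nat.card_Icc] at h2
    omega
  have hR2c : #R2 ≤ #((Ioc X0 Z).filter (fun m => Bad (2 * L) H m)) := by
    rw [← card_image_of_injOn (hinj R2)]
    apply card_le_card
    intro m hm
    rw [mem_image] at hm
    obtain ⟨q, hq, rfl⟩ := hm
    rw [mem_filter] at hq
    rw [mem_filter, mem_Ioc]
    refine ⟨⟨hq.2.1, ?_⟩, hq.2.2⟩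
    rw [hZ]
    apply Nat.le_floor
    have h1 := pr_le (x := x) (by linarith) q (mem_Icc.mp (hQ hq.1)).2
    have h2 : (h0 : ℝ) ≤ 2 * x := by exact_mod_cast hh0
    push_cast
    rw [← hL] at h1
    nlinarith
  have hQ0 : (x : ℝ) / L ^ B ≤ #Q := by
    rw [div_le_iff₀ hLB]
    exact hQc
  have hX0hi : (X0 : ℝ) ≤ #Q / 4 := by
    have h1 : (X0 : ℝ) ≤ x / L ^ (B + 1) := Nat.floor_le (by positivity)
    have h2 : (x : ℝ) / L ^ (B + 1) = (x / L ^ B) / L := by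
      rw [pow_succ]
      field_simp
    rw [h2] at h1
    have h3 : (x : ℝ) / L ^ B / L ≤ x / L ^ B / 4 := by
      apply div_le_div_of_nonneg_left (by positivity) (by norm_num) (by linarith)
    linarith
  have hbad' : (#((Ioc X0 Z).filter (fun m => Bad (2 * L) H m)) : ℝ) ≤ #Q / 4 := by
    refine hb.trans ?_
    have h2 : (x : ℝ) / (4 * L ^ B) = (x / L ^ B) / 4 := by field_simp
    rw [h2]
    linarith
  refine ⟨Q1, filter_subset _ _, ?_, ?_⟩
  · have e1 : (#Q : ℝ) ≤ #Q1 + (#R1 + #R2) := by exact_mod_cast hc1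
    have e2 : (#R1 : ℝ) ≤ X0 := by exact_mod_cast hR1c
    have e3 : (#R2 : ℝ) ≤ #((Ioc X0 Z).filter (fun m => Bad (2 * L) H m)) := by exact_mod_cast hR2c
    linarith
  · intro q hq
    have h1 := (mem_filter.mp hq).2.2
    unfold Bad at h1
    rw [not_lt] at h1
    linarith

/-- the second moment over a dense subset -/
theorem second_moment : ∃ D : ℝ, 1 ≤ D ∧ ∀ B : ℕ, ∃ x0 : ℕ, ∀ x : ℕ, x0 ≤ x → ∀ Q1 : Finset ℕ, Q1 ⊆ Icc 1 x →
    (x : ℝ) ≤ 2 * #Q1 * Real.log x ^ B → ∀ h0 H : ℕ, (x : ℝ) ^ (1 / 3 : ℝ) * Real.log x ≤ H →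
      ∑ h ∈ Ioc h0 (h0 + H), (cnt Q1 h : ℝ) ^ 2 ≤
        D * Real.log (Real.log (Real.log x)) * (#Q1 : ℝ) ^ 2 * H / Real.log x ^ 2 := by
  classical
  obtain ⟨Cs, hCs, u0, hs⟩ := pair_sieve_long 4
  obtain ⟨C2, hC2, havg⟩ := pair_avg
  refine ⟨2 * (4 + 9 * Cs * (C2 * Real.exp 1)), ?_, fun B => ?_⟩
  · have : 0 ≤ 9 * Cs * (C2 * Real.exp 1) := by positivity
    linarith
  obtain ⟨x1, hx11, hf⟩ := ev_facts B (max 1000 (Real.exp (B + 10))) 4
  obtain ⟨x2, hx2⟩ := ev_third u0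
  refine ⟨max x1 x2, fun x hx Q1 hQ1 hQc h0 H hH => ?_⟩
  obtain ⟨f1, f2, f3⟩ := hf x (le_trans (le_max_left _ _) hx)
  have hxu := hx2 x (le_trans (le_max_right _ _) hx)
  have hx1 : 1 ≤ x := le_trans hx11 (le_trans (le_max_left _ _) hx)
  have hxr : (1 : ℝ) ≤ x := by exact_mod_cast hx1
  have hx0 : (0 : ℝ) < x := by linarith
  set L := Real.log x with hL
  have hL1 : 1000 ≤ L := le_trans (le_max_left _ _) f1
  have hL2 : Real.exp (B + 10) ≤ L := le_trans (le_max_right _ _) f1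
  have hL0 : 0 < L := by linarith
  set l := Real.log L with hl
  have hlB : (B : ℝ) + 10 ≤ l := by
    rw [hl, Real.le_log_iff_exp_le hL0]
    exact hL2
  have hB0 : (0 : ℝ) ≤ B := Nat.cast_nonneg _
  have hx3 : 1 ≤ (x : ℝ) ^ (1 / 3 : ℝ) := Real.one_le_rpow hxr (by norm_num)
  have hHx : (x : ℝ) ^ (1 / 3 : ℝ) ≤ H := by nlinarith
  have hH0 : (0 : ℝ) < H := by linarith
  have hlogH : L / 3 ≤ Real.log H := by
    have h1 := Real.log_le_log (by positivity) hHx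
    rw [Real.log_rpow hx0] at h1
    linarith
  have huH : u0 ≤ H := by exact_mod_cast hxu.trans hHx
  have hH4 : 40 * (x : ℝ) * L ≤ (H : ℝ) ^ 4 := by
    have h1 : ((x : ℝ) ^ (1 / 3 : ℝ) * L) ^ 4 ≤ (H : ℝ) ^ 4 := pow_le_pow_left₀ (by positivity) hH 4
    have h2 : ((x : ℝ) ^ (1 / 3 : ℝ)) ^ 3 = x := by
      rw [← Real.rpow_natCast, ← Real.rpow_mul hx0.le]
      norm_num
    have h3 : ((x : ℝ) ^ (1 / 3 : ℝ) * L) ^ 4 = (((x : ℝ) ^ (1 / 3 : ℝ)) ^ 3 * (x : ℝ) ^ (1 / 3 : ℝ)) * L ^ 4 := by ring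
    rw [h3, h2] at h1
    refine le_trans ?_ h1
    have h4 : 40 * L ≤ L ^ 4 := by
      have h5 : (40 : ℝ) ≤ L ^ 3 := by
        calc (40 : ℝ) ≤ 1000 ^ 3 := by norm_num
          _ ≤ L ^ 3 := pow_le_pow_left₀ (by norm_num) hL1 3
      calc 40 * L ≤ L ^ 3 * L := mul_le_mul_of_nonneg_right h5 hL0.le
        _ = L ^ 4 := by ring
    calc 40 * (x : ℝ) * L = x * 1 * (40 * L) := by ring
      _ ≤ x * (x : ℝ) ^ (1 / 3 : ℝ) * L ^ 4 := by
          apply mul_le_mul _ h4 (by positivity) (by positivity)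
          exact mul_le_mul_of_nonneg_left hx3 hx0.le
  have hLB : 0 < L ^ B := by positivity
  have hQlow : (x : ℝ) / (2 * L ^ B) ≤ #Q1 := by
    rw [div_le_iff₀ (by positivity)]
    linarith
  have hpru : ∀ q ∈ Q1, (pr q : ℝ) ≤ 20 * x * L := fun q hq =>
    pr_le (x := x) (by linarith) q (mem_Icc.mp (hQ1 hq)).2
  -- the average of the singular factors
  set k : ℕ := ⌈((B : ℝ) + 3) * l⌉₊ + 3 with hk
  have hk3 : 3 ≤ k := by omega
  have hkl : ((B : ℝ) + 3) * l ≤ k := by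
    have := Nat.le_ceil (((B : ℝ) + 3) * l)
    rw [hk]
    push_cast
    linarith
  have hku : (k : ℝ) ≤ l ^ 2 := by
    have h1 : (⌈((B : ℝ) + 3) * l⌉₊ : ℝ) < ((B : ℝ) + 3) * l + 1 := Nat.ceil_lt_add_one (by nlinarith)
    rw [hk]
    push_cast
    nlinarith
  set Y : ℕ := ⌊20 * (x : ℝ) * L⌋₊ with hY
  set S := Q1.image pr with hS
  have hSc : #S = #Q1 := card_image_of_injOn fun a _ b _ h => pr_inj h
  have hSY : S ⊆ Icc 1 Y := by
    intro m hm
    rw [hS, mem_image] at hm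
    obtain ⟨q, hq, rfl⟩ := hm
    rw [mem_Icc]
    have := pr_ge q
    exact ⟨by omega, Nat.le_floor (hpru q hq)⟩
  have hexpk : L ^ (B + 3) ≤ Real.exp 1 ^ k := by
    rw [← Real.exp_nat_mul, mul_one]
    have h1 : L ^ (B + 3) = Real.exp (((B + 3 : ℕ) : ℝ) * l) := by
      rw [hl, mul_comm, Real.exp_mul, Real.exp_log hL0, Real.rpow_natCast]
    rw [h1]
    apply Real.exp_le_exp.mpr
    push_cast
    exact hkl
  have h2Y : 2 * (Y : ℝ) ≤ Real.exp 1 ^ k * #S := by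
    have h1 : (Y : ℝ) ≤ 20 * x * L := Nat.floor_le (by positivity)
    rw [hSc]
    calc 2 * (Y : ℝ) ≤ 40 * x * L := by linarith
      _ ≤ L ^ (B + 3) * (x / (2 * L ^ B)) := by
          have h3 : L ^ (B + 3) * (x / (2 * L ^ B)) = x * L * (L ^ 2 / 2) := by
            rw [pow_add]
            field_simp
          rw [h3]
          have h4 : 40 ≤ L ^ 2 / 2 := by nlinarith
          have h5 : 0 ≤ x * L := by positivity
          nlinarith
      _ ≤ Real.exp 1 ^ k * #Q1 := mul_le_mul hexpk hQlow (by positivity) (by positivity)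
  have hA := havg k Y S (Real.exp 1) hk3 hSY (Real.exp_pos 1).le h2Y
  have hreidx : ∑ z ∈ Q1.offDiag, gg (2 * Nat.dist (pr z.1) (pr z.2)) = ∑ w ∈ S.offDiag, gg (2 * Nat.dist w.1 w.2) := by
    refine sum_nbij (fun z => (pr z.1, pr z.2)) ?_ ?_ ?_ ?_
    · intro z hz
      rw [mem_offDiag] at hz ⊢
      exact ⟨mem_image_of_mem _ hz.1, mem_image_of_mem _ hz.2.1, fun h => hz.2.2 (pr_inj h)⟩
    · intro a _ b _ hab
      simp only [Prod.mk.injEq] at hab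
      exact Prod.ext (pr_inj hab.1) (pr_inj hab.2)
    · intro w hw
      rw [mem_coe, mem_offDiag, hS, mem_image, mem_image] at hw
      obtain ⟨⟨a, ha, ha'⟩, ⟨b, hb, hb'⟩, hne⟩ := hw
      refine ⟨(a, b), ?_, Prod.ext ha' hb'⟩
      rw [mem_coe, mem_offDiag]
      refine ⟨ha, hb, fun h => hne ?_⟩
      have h' : a = b := h
      rw [← ha', ← hb', h']
    · intro z _
      rfl
  rw [← hreidx, hSc] at hA
  -- the triple logarithm
  set T := Real.log l with hT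
  have hl10 : 10 ≤ l := by linarith
  have hT1 : 1 / 2 ≤ T := by
    rw [hT, Real.le_log_iff_exp_le (by linarith)]
    have h1 := Real.exp_one_lt_d9
    have h2 : Real.exp (1 / 2) ≤ Real.exp 1 := Real.exp_le_exp.mpr (by norm_num)
    linarith
  have hlogk : Real.log k ≤ 2 * T := by
    have h1 := Real.log_le_log (by positivity) hku
    rw [Real.log_pow] at h1
    push_cast at h1
    exact h1
  -- the off-diagonal terms
  have hlH2 : 1 / Real.log H ^ 2 ≤ 9 / L ^ 2 := by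
    have h1 : (L / 3) ^ 2 ≤ Real.log H ^ 2 := pow_le_pow_left₀ (by positivity) hlogH 2
    calc 1 / Real.log H ^ 2 ≤ 1 / (L / 3) ^ 2 := one_div_le_one_div_of_le (by positivity) h1
      _ = 9 / L ^ 2 := by field_simp; norm_num
  have hoff : ∑ z ∈ Q1.offDiag, (#((Ioc h0 (h0 + H)).filter (fun h => (pr z.1 + h).Prime ∧ (pr z.2 + h).Prime)) : ℝ) ≤
      Cs * H * (9 / L ^ 2) * (C2 * Real.exp 1 * (2 * T) * (#Q1 : ℝ) ^ 2) := by
    calc ∑ z ∈ Q1.offDiag, (#((Ioc h0 (h0 + H)).filter (fun h => (pr z.1 + h).Prime ∧ (pr z.2 + h).Prime)) : ℝ) ≤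
        ∑ z ∈ Q1.offDiag, Cs * H * (9 / L ^ 2) * gg (2 * Nat.dist (pr z.1) (pr z.2)) := by
          refine sum_le_sum fun z hz => ?_
          rw [mem_offDiag] at hz
          have e1 := pair_count Cs u0 hs (h0 := h0) (H := H) (fun h => hz.2.2 (pr_inj h)) huH
            (by have := hpru z.1 hz.1; linarith) (by have := hpru z.2 hz.2.1; linarith)
          refine e1.trans ?_
          have e2 : Cs * gg (2 * Nat.dist (pr z.1) (pr z.2)) * H / Real.log H ^ 2 =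
              (Cs * gg (2 * Nat.dist (pr z.1) (pr z.2)) * H) * (1 / Real.log H ^ 2) := by ring
          rw [e2]
          have e3 : 0 ≤ Cs * gg (2 * Nat.dist (pr z.1) (pr z.2)) * H := by
            have := one_le_gg (2 * Nat.dist (pr z.1) (pr z.2))
            positivity
          have e4 := mul_le_mul_of_nonneg_left hlH2 e3
          linarith
      _ = Cs * H * (9 / L ^ 2) * ∑ z ∈ Q1.offDiag, gg (2 * Nat.dist (pr z.1) (pr z.2)) := by rw [mul_sum]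
      _ ≤ Cs * H * (9 / L ^ 2) * (C2 * Real.exp 1 * Real.log k * (#Q1 : ℝ) ^ 2) :=
          mul_le_mul_of_nonneg_left hA (by positivity)
      _ ≤ _ := by
          apply mul_le_mul_of_nonneg_left _ (by positivity)
          apply mul_le_mul_of_nonneg_right _ (by positivity)
          exact mul_le_mul_of_nonneg_left hlogk (by positivity)
  have hdiag : ∑ q ∈ Q1, (wp (pr q + h0) H : ℝ) ≤ #Q1 * H := by
    calc ∑ q ∈ Q1, (wp (pr q + h0) H : ℝ) ≤ ∑ q ∈ Q1, (H : ℝ) :=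
          sum_le_sum fun q _ => by exact_mod_cast wp_le _ _
      _ = #Q1 * H := by rw [sum_const, nsmul_eq_mul]
  have hQL : L ^ 2 ≤ 4 * #Q1 := by
    have h1 : (x : ℝ) ^ (9 / 10 : ℝ) * L ≤ x / L ^ B := by
      have h2 : (x : ℝ) ^ (9 / 10 : ℝ) ≤ x / L ^ (B + 1) := by linarith
      rw [le_div_iff₀ (by positivity)] at h2 ⊢
      calc (x : ℝ) ^ (9 / 10 : ℝ) * L * L ^ B = (x : ℝ) ^ (9 / 10 : ℝ) * L ^ (B + 1) := by ring
        _ ≤ x := h2
    have h3 : L ≤ (x : ℝ) ^ (9 / 10 : ℝ) / (9 / 10) := Real.log_le_rpow_div hx0.le (by norm_num)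
    have h4 : (x : ℝ) / L ^ B ≤ 2 * #Q1 := by
      have h5 : (x : ℝ) / (2 * L ^ B) = x / L ^ B / 2 := by field_simp
      rw [h5] at hQlow
      linarith
    have h6 : L ^ 2 ≤ (x : ℝ) ^ (9 / 10 : ℝ) / (9 / 10) * L := by
      rw [sq]
      exact mul_le_mul_of_nonneg_right h3 hL0.le
    have h7 : (x : ℝ) ^ (9 / 10 : ℝ) / (9 / 10) * L = (10 / 9) * ((x : ℝ) ^ (9 / 10 : ℝ) * L) := by ring
    rw [h7] at h6
    have h8 : (0 : ℝ) ≤ #Q1 := Nat.cast_nonneg _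
    linarith
  rw [sum_cnt_sq]
  have hQ0 : (0 : ℝ) ≤ #Q1 := Nat.cast_nonneg _
  have hdiag2 : (#Q1 : ℝ) * H ≤ 4 * (#Q1 : ℝ) ^ 2 * H / L ^ 2 := by
    rw [le_div_iff₀ (by positivity)]
    have h1 : 0 ≤ (#Q1 : ℝ) * H := by positivity
    have h2 := mul_le_mul_of_nonneg_left hQL h1
    linarith
  calc ∑ q ∈ Q1, (wp (pr q + h0) H : ℝ) +
      ∑ z ∈ Q1.offDiag, (#((Ioc h0 (h0 + H)).filter (fun h => (pr z.1 + h).Prime ∧ (pr z.2 + h).Prime)) : ℝ) ≤
      4 * (#Q1 : ℝ) ^ 2 * H / L ^ 2 + Cs * H * (9 / L ^ 2) * (C2 * Real.exp 1 * (2 * T) * (#Q1 : ℝ) ^ 2) :=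
        add_le_add (hdiag.trans hdiag2) hoff
    _ = ((#Q1 : ℝ) ^ 2 * H / L ^ 2) * (4 + 2 * (9 * Cs * (C2 * Real.exp 1)) * T) := by ring
    _ ≤ ((#Q1 : ℝ) ^ 2 * H / L ^ 2) * (2 * (4 + 9 * Cs * (C2 * Real.exp 1)) * T) := by
        apply mul_le_mul_of_nonneg_left _ (by positivity)
        linarith
    _ = _ := by ring

end Pool.Agent.V8H10.GS
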