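import Pool.Agent.V8H10.GS.Main2

/-!
# Many good shifts in every short interval of shifts
-/

set_option autoImplicit false

open Finset Filter Topology

namespace Pool.Agent.V8H10.GS

lemma cnt_mono {Q1 Q : Finset ℕ} (h : Q1 ⊆ Q) (k : ℕ) : cnt Q1 k ≤ cnt Q k :=
  card_le_card (filter_subset_filter _ h)

open Classical in
theorem base : ∃ c : ℝ, 0 < c ∧ c ≤ 1 / 128 ∧ ∀ B : ℕ, ∃ C x0 : ℕ, ∀ x : ℕ, x0 ≤ x → ∀ Q : Finset ℕ, Q ⊆ Icc 1 x →
    (x : ℝ) ≤ #Q * Real.log x ^ B → ∀ h0 H : ℕ, h0 ≤ 2 * x → (x : ℝ) ^ (1 / 3 : ℝ) * Real.log x ^ C ≤ H →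
    (H : ℝ) ≤ (x : ℝ) ^ (9 / 10 : ℝ) →
      c * H / Real.log (Real.log (Real.log x)) ≤
        #((Ioc h0 (h0 + H)).filter (fun h => Even h ∧ (1 / 128) * #Q / Real.log x ≤ cnt Q h)) := by
  obtain ⟨D, hD, h2⟩ := second_moment
  refine ⟨1 / (65536 * D), by positivity, ?_, fun B => ?_⟩
  · rw [one_div_le_one_div (by positivity) (by norm_num)]
    linarith
  obtain ⟨C, x1, h1⟩ := first_moment B
  obtain ⟨x2, h2⟩ := h2 B
  obtain ⟨x3, hx31, hf⟩ := ev_facts B (Real.exp (Real.exp 1)) 4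
  refine ⟨C + 1, max (max x1 x2) x3, fun x hx Q hQ hQc h0 H hh0 hH1 hH2 => ?_⟩
  have hxx1 : x1 ≤ x := le_trans (le_trans (le_max_left _ _) (le_max_left _ _)) hx
  have hxx2 : x2 ≤ x := le_trans (le_trans (le_max_right _ _) (le_max_left _ _)) hx
  obtain ⟨f1, f2, f3⟩ := hf x (le_trans (le_max_right _ _) hx)
  have hx1 : 1 ≤ x := le_trans hx31 (le_trans (le_max_right _ _) hx)
  have hx0 : (0 : ℝ) < x := by exact_mod_cast hx1
  set L := Real.log x with hL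
  have he : (2 : ℝ) ≤ Real.exp 1 := by
    have := Real.exp_one_gt_d9
    linarith
  have hLe : (2 : ℝ) ≤ L := by
    have h3 : Real.exp 1 ≤ Real.exp (Real.exp 1) := Real.exp_le_exp.mpr (by linarith)
    linarith
  have hL0 : 0 < L := by linarith
  set T := Real.log (Real.log L) with hT
  have hT1 : 1 ≤ T := by
    have h3 : Real.exp 1 ≤ Real.log L := by
      rw [Real.le_log_iff_exp_le hL0]
      exact f1
    rw [hT, Real.le_log_iff_exp_le (by linarith)]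
    exact h3
  have hHC : (x : ℝ) ^ (1 / 3 : ℝ) * L ^ C ≤ H := by
    refine le_trans ?_ hH1
    apply mul_le_mul_of_nonneg_left _ (by positivity)
    exact pow_le_pow_right₀ (by linarith) (by omega)
  have hHL : (x : ℝ) ^ (1 / 3 : ℝ) * L ≤ H := by
    refine le_trans ?_ hH1
    apply mul_le_mul_of_nonneg_left _ (by positivity)
    calc L = L ^ 1 := (pow_one L).symm
      _ ≤ L ^ (C + 1) := pow_le_pow_right₀ (by linarith) (by omega)
  obtain ⟨Q1, hQ1, hc, hw⟩ := h1 x hxx1 Q hQ hQc h0 H hh0 hHC hH2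
  have hQpos : (0 : ℝ) < #Q := by
    by_contra hcon
    have h3 : (#Q : ℝ) = 0 := le_antisymm (not_lt.mp hcon) (Nat.cast_nonneg _)
    rw [h3, zero_mul] at hQc
    linarith
  have hH0 : (0 : ℝ) < H := lt_of_lt_of_le (by positivity) hHL
  have hQ1c : (x : ℝ) ≤ 2 * #Q1 * L ^ B := by
    refine hQc.trans ?_
    apply mul_le_mul_of_nonneg_right _ (by positivity)
    linarith
  have hV := h2 x hxx2 Q1 (hQ1.trans hQ) hQ1c h0 H hHL
  rw [← hL, ← hT] at hV
  -- first moment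
  have hM1 : (#Q : ℝ) * H / (64 * L) ≤ ∑ h ∈ Ioc h0 (h0 + H), (cnt Q1 h : ℝ) := by
    rw [sum_cnt]
    have h3 : ∑ q ∈ Q1, (H : ℝ) / (32 * L) ≤ ∑ q ∈ Q1, (wp (pr q + h0) H : ℝ) := by
      refine sum_le_sum fun q hq => ?_
      rw [div_le_iff₀ (by positivity)]
      have := hw q hq
      linarith
    rw [sum_const, nsmul_eq_mul] at h3
    refine le_trans ?_ h3
    calc (#Q : ℝ) * H / (64 * L) = (#Q / 2) * (H / (32 * L)) := by ring
      _ ≤ #Q1 * (H / (32 * L)) := mul_le_mul_of_nonneg_right hc (by positivity)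
  set τ : ℝ := (1 / 128) * #Q / L with hτ
  set G := (Ioc h0 (h0 + H)).filter (fun h => τ ≤ cnt Q1 h) with hG
  set G2 := (Ioc h0 (h0 + H)).filter (fun h => Even h ∧ τ ≤ cnt Q h) with hG2
  have hτ0 : 0 < τ := by positivity
  have hGG : G ⊆ G2 := by
    intro h hh
    rw [mem_filter] at hh ⊢
    refine ⟨hh.1, ?_, hh.2.trans (by exact_mod_cast cnt_mono hQ1 h)⟩
    have h3 : (0 : ℝ) < cnt Q1 h := lt_of_lt_of_le hτ0 hh.2
    have h4 : 0 < cnt Q1 h := by exact_mod_cast h3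
    obtain ⟨q, hq⟩ := card_pos.mp h4
    exact odd_shift (q := q) (mem_filter.mp hq).2
  have hsplit : ∑ h ∈ Ioc h0 (h0 + H), (cnt Q1 h : ℝ) ≤ ∑ h ∈ G, (cnt Q1 h : ℝ) + H * τ := by
    rw [← sum_filter_add_sum_filter_not (Ioc h0 (h0 + H)) (fun h => τ ≤ cnt Q1 h)]
    apply add_le_add le_rfl
    calc ∑ h ∈ (Ioc h0 (h0 + H)).filter (fun h => ¬ τ ≤ cnt Q1 h), (cnt Q1 h : ℝ) ≤
        ∑ h ∈ (Ioc h0 (h0 + H)).filter (fun h => ¬ τ ≤ cnt Q1 h), τ :=
          sum_le_sum fun h hh => (not_le.mp (mem_filter.mp hh).2).le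
      _ = #((Ioc h0 (h0 + H)).filter (fun h => ¬ τ ≤ cnt Q1 h)) * τ := by rw [sum_const, nsmul_eq_mul]
      _ ≤ H * τ := by
          apply mul_le_mul_of_nonneg_right _ hτ0.le
          have h3 : #((Ioc h0 (h0 + H)).filter (fun h => ¬ τ ≤ cnt Q1 h)) ≤ H := by
            refine (card_filter_le _ _).trans ?_
            rw [Nat.card_Ioc]
            omega
          exact_mod_cast h3
  have hHτ : (H : ℝ) * τ = #Q * H / (128 * L) := by rw [hτ]; ring
  have hSG : (#Q : ℝ) * H / (128 * L) ≤ ∑ h ∈ G, (cnt Q1 h : ℝ) := by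
    have h3 : (#Q : ℝ) * H / (64 * L) = #Q * H / (128 * L) + #Q * H / (128 * L) := by ring
    linarith
  have hCS : (∑ h ∈ G, (cnt Q1 h : ℝ)) ^ 2 ≤ #G * ∑ h ∈ G, (cnt Q1 h : ℝ) ^ 2 := sq_sum_le_card_mul_sum_sq
  have hsub : ∑ h ∈ G, (cnt Q1 h : ℝ) ^ 2 ≤ ∑ h ∈ Ioc h0 (h0 + H), (cnt Q1 h : ℝ) ^ 2 :=
    sum_le_sum_of_subset_of_nonneg (filter_subset _ _) fun _ _ _ => by positivity
  have hQ1Q : (#Q1 : ℝ) ≤ #Q := by exact_mod_cast card_le_card hQ1
  have hfin : ((#Q : ℝ) * H / (128 * L)) ^ 2 ≤ #G * (D * T * (#Q : ℝ) ^ 2 * H / L ^ 2) := by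
    calc ((#Q : ℝ) * H / (128 * L)) ^ 2 ≤ (∑ h ∈ G, (cnt Q1 h : ℝ)) ^ 2 := pow_le_pow_left₀ (by positivity) hSG 2
      _ ≤ #G * ∑ h ∈ G, (cnt Q1 h : ℝ) ^ 2 := hCS
      _ ≤ #G * (D * T * (#Q1 : ℝ) ^ 2 * H / L ^ 2) :=
          mul_le_mul_of_nonneg_left (hsub.trans hV) (Nat.cast_nonneg _)
      _ ≤ #G * (D * T * (#Q : ℝ) ^ 2 * H / L ^ 2) := by
          apply mul_le_mul_of_nonneg_left _ (Nat.cast_nonneg _)
          gcongr
  have hres : 1 / (65536 * D) * H / T ≤ #G := by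
    have h3 : ((#Q : ℝ) * H / (128 * L)) ^ 2 = ((#Q : ℝ) ^ 2 * H / L ^ 2) * (H / 16384) := by ring
    have h4 : (#G : ℝ) * (D * T * (#Q : ℝ) ^ 2 * H / L ^ 2) = ((#Q : ℝ) ^ 2 * H / L ^ 2) * (#G * (D * T)) := by ring
    rw [h3, h4] at hfin
    have h5 : (H : ℝ) / 16384 ≤ #G * (D * T) := le_of_mul_le_mul_left hfin (by positivity)
    rw [div_le_iff₀ (by linarith)]
    have h6 : 1 / (65536 * D) * (H : ℝ) = (H / 16384) / (4 * D) := by field_simp; norm_num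
    rw [h6, div_le_iff₀ (by positivity)]
    have h7 : (0 : ℝ) ≤ #G * (D * T) := by positivity
    nlinarith
  refine hres.trans ?_
  exact_mod_cast card_le_card hGG

open Classical in
/-- **The theorem for sets of indices.** -/
theorem main_sets : ∃ c : ℝ, 0 < c ∧ ∀ B : ℕ, ∃ C x0 : ℕ, ∀ x : ℕ, x0 ≤ x → ∀ Q : Finset ℕ, Q ⊆ Icc 1 x →
    (x : ℝ) ≤ #Q * Real.log x ^ B → ∀ h0 H : ℕ, h0 ≤ x → (x : ℝ) ^ (1 / 3 : ℝ) * Real.log x ^ C ≤ H → H ≤ x →
      c * H / Real.log (Real.log (Real.log x)) ≤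
        #((Ioc h0 (h0 + H)).filter (fun h => Even h ∧ c * #Q / Real.log x ≤ cnt Q h)) := by
  obtain ⟨c, hc0, hc1, hb⟩ := base
  refine ⟨c / 4, by positivity, fun B => ?_⟩
  obtain ⟨C, x1, hb⟩ := hb B
  obtain ⟨x3, hx31, hf⟩ := ev_facts B (Real.exp (Real.exp 1)) 4
  obtain ⟨x4, hx4⟩ := ev_nat (fun x => x ^ (1 / 3 : ℝ) * Real.log x ^ C ≤ x ^ (9 / 10 : ℝ) - 1) (by
    have h1 := (isLittleO_log_rpow_rpow_atTop (C : ℝ) (by norm_num : (0 : ℝ) < 1 / 10)).bound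
      (by norm_num : (0 : ℝ) < 1 / 2)
    have h2 := (tendsto_rpow_atTop (by norm_num : (0 : ℝ) < 9 / 10)).eventually_ge_atTop 2
    filter_upwards [h1, h2, eventually_gt_atTop (1 : ℝ), Real.tendsto_log_atTop.eventually (eventually_ge_atTop (1 : ℝ))]
      with x h1 h2 h3 h4
    have hx0 : 0 < x := by linarith
    rw [Real.rpow_natCast, Real.norm_of_nonneg (by positivity), Real.norm_of_nonneg (by positivity)] at h1
    have h5 : x ^ (1 / 3 : ℝ) * Real.log x ^ C ≤ x ^ (1 / 3 : ℝ) * (1 / 2 * x ^ (1 / 10 : ℝ)) :=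
      mul_le_mul_of_nonneg_left h1 (by positivity)
    have h6 : x ^ (1 / 3 : ℝ) * (1 / 2 * x ^ (1 / 10 : ℝ)) = 1 / 2 * (x ^ (1 / 3 : ℝ) * x ^ (1 / 10 : ℝ)) := by ring
    rw [h6, ← Real.rpow_add hx0] at h5
    have h7 : x ^ ((1 : ℝ) / 3 + 1 / 10) ≤ x ^ (9 / 10 : ℝ) :=
      Real.rpow_le_rpow_of_exponent_le h3.le (by norm_num)
    linarith)
  refine ⟨C, max (max x1 x3) x4, fun x hx Q hQ hQc h0 H hh0 hH1 hH2 => ?_⟩
  have hxx1 : x1 ≤ x := le_trans (le_trans (le_max_left _ _) (le_max_left _ _)) hx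
  have hxx4 := hx4 x (le_trans (le_max_right _ _) hx)
  have hxx3 : x3 ≤ x := le_trans (le_trans (le_max_right _ _) (le_max_left _ _)) hx
  obtain ⟨f1, f2, f3⟩ := hf x hxx3
  have hx1 : 1 ≤ x := le_trans hx31 hxx3
  have hx0 : (0 : ℝ) < x := by exact_mod_cast hx1
  set L := Real.log x with hL
  have he : (2 : ℝ) ≤ Real.exp 1 := by
    have := Real.exp_one_gt_d9
    linarith
  have hLe : (2 : ℝ) ≤ L := by
    have h3 : Real.exp 1 ≤ Real.exp (Real.exp 1) := Real.exp_le_exp.mpr (by linarith)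
    linarith
  have hL0 : 0 < L := by linarith
  set T := Real.log (Real.log L) with hT
  have hT1 : 1 ≤ T := by
    have h3 : Real.exp 1 ≤ Real.log L := by
      rw [Real.le_log_iff_exp_le hL0]
      exact f1
    rw [hT, Real.le_log_iff_exp_le (by linarith)]
    exact h3
  have hQ0 : (0 : ℝ) ≤ #Q := Nat.cast_nonneg _
  have hthr : c / 4 * #Q / L ≤ (1 / 128) * #Q / L := by
    apply div_le_div_of_nonneg_right _ hL0.le
    exact mul_le_mul_of_nonneg_right (by linarith) hQ0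
  have key : ∀ h1 H1 : ℕ, h1 ≤ 2 * x → (x : ℝ) ^ (1 / 3 : ℝ) * L ^ C ≤ H1 → (H1 : ℝ) ≤ (x : ℝ) ^ (9 / 10 : ℝ) →
      c * H1 / T ≤ #((Ioc h1 (h1 + H1)).filter (fun h => Even h ∧ c / 4 * #Q / L ≤ cnt Q h)) := by
    intro h1 H1 a1 a2 a3
    refine (hb x hxx1 Q hQ hQc h1 H1 a1 a2 a3).trans ?_
    have : (Ioc h1 (h1 + H1)).filter (fun h => Even h ∧ (1 / 128) * #Q / L ≤ cnt Q h) ⊆
        (Ioc h1 (h1 + H1)).filter (fun h => Even h ∧ c / 4 * #Q / L ≤ cnt Q h) := by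
      intro h hh
      rw [mem_filter] at hh ⊢
      exact ⟨hh.1, hh.2.1, hthr.trans hh.2.2⟩
    exact_mod_cast card_le_card this
  by_cases hcase : (H : ℝ) ≤ (x : ℝ) ^ (9 / 10 : ℝ)
  · refine le_trans ?_ (key h0 H (by omega) hH1 hcase)
    apply div_le_div_of_nonneg_right _ (by linarith)
    apply mul_le_mul_of_nonneg_right (by linarith) (Nat.cast_nonneg _)
  · rw [not_le] at hcase
    set H1 : ℕ := ⌊(x : ℝ) ^ (9 / 10 : ℝ)⌋₊ with hH1def
    have b1 : (H1 : ℝ) ≤ (x : ℝ) ^ (9 / 10 : ℝ) := Nat.floor_le (by positivity)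
    have b2 : (x : ℝ) ^ (9 / 10 : ℝ) < H1 + 1 := Nat.lt_floor_add_one _
    have b3 : (x : ℝ) ^ (1 / 3 : ℝ) * L ^ C ≤ H1 := by linarith
    have hH1pos : 1 ≤ H1 := by
      have : (0 : ℝ) < H1 := by linarith
      exact_mod_cast this
    have hH1H : H1 ≤ H := by
      have : (H1 : ℝ) ≤ H := b1.trans hcase.le
      exact_mod_cast this
    set K : ℕ := H / H1 with hK
    have hK1 : 1 ≤ K := (Nat.one_le_div_iff (by omega)).mpr hH1H
    have hKH : K * H1 ≤ H := Nat.div_mul_le_self H H1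
    have hKH2 : H ≤ 2 * (K * H1) := by
      have h3 := Nat.lt_div_mul_add (a := H) (b := H1) (by omega)
      rw [← hK] at h3
      have h4 : H1 ≤ K * H1 := Nat.le_mul_of_pos_left _ (by omega)
      omega
    set P : ℕ → Prop := fun h => Even h ∧ c / 4 * #Q / L ≤ cnt Q h with hP
    have hind : ∀ k : ℕ, k ≤ K → (k : ℝ) * (c * H1 / T) ≤ #((Ioc h0 (h0 + k * H1)).filter P) := by
      intro k
      induction k with
      | zero => intro _; simp
      | succ k ih =>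
        intro hk
        have ih' := ih (by omega)
        have h3 : k * H1 ≤ K * H1 := Nat.mul_le_mul_right _ (by omega)
        have h4 := key (h0 + k * H1) H1 (by omega) b3 b1
        have h5 : h0 + (k + 1) * H1 = h0 + k * H1 + H1 := by ring
        rw [h5, ← Ioc_union_Ioc_eq_Ioc (show h0 ≤ h0 + k * H1 by omega) (show h0 + k * H1 ≤ h0 + k * H1 + H1 by omega),
          filter_union, card_union_of_disjoint]
        · push_cast
          linarith
        · refine disjoint_filter_filter ?_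
          rw [disjoint_left]
          intro a ha hb
          rw [mem_Ioc] at ha hb
          omega
    have h6 := hind K le_rfl
    have h7 : (Ioc h0 (h0 + K * H1)).filter P ⊆ (Ioc h0 (h0 + H)).filter P :=
      filter_subset_filter _ (Ioc_subset_Ioc_right (by omega))
    have h8 : (#((Ioc h0 (h0 + K * H1)).filter P) : ℝ) ≤ #((Ioc h0 (h0 + H)).filter P) := by
      exact_mod_cast card_le_card h7
    refine le_trans ?_ (h6.trans h8)
    have h9 : (H : ℝ) ≤ 2 * (K * H1) := by exact_mod_cast hKH2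
    have h10 : (K : ℝ) * (c * H1 / T) = c * (K * H1) / T := by ring
    rw [h10]
    apply div_le_div_of_nonneg_right _ (by linarith)
    have h11 : (0 : ℝ) ≤ K * H1 := by positivity
    nlinarith

end Pool.Agent.V8H10.GS
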