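import Pool.Agent.V8H10.AS.SicAll

/-!
# Primes in almost all short windows, with a small exceptional set
-/

set_option autoImplicit false

open Finset Filter Topology

namespace Pool.Agent.V8H10.GS

open Pool.Agent.Q236.CR

/-- the primes of the window `(m, m + H]` -/
def wp (m H : ℕ) : ℕ := #((Ioc m (m + H)).filter Nat.Prime)

/-- the sum of `Λ` over the window -/
noncomputable def wl (m H : ℕ) : ℝ := ∑ n ∈ Ioc m (m + H), ArithmeticFunction.vonMangoldt n

lemma bad_lambda (U : ℕ) : ∃ C x0 : ℕ, ∀ x : ℕ, x0 ≤ x → ∀ H : ℕ, (x : ℝ) ^ (1 / 3 : ℝ) * Real.log x ^ C ≤ H →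
    H ≤ x → (#((Ioc x (2 * x)).filter (fun m => wl m H < H / 2)) : ℝ) ≤ 4 * x / Real.log x ^ U := by
  classical
  obtain ⟨C, X0, h⟩ := Pool.Agent.V8H10.AS.sic_all 0 U
  refine ⟨C, max X0 3, fun x hx H hH1 hH2 => ?_⟩
  have hx3 : 3 ≤ x := le_trans (le_max_right _ _) hx
  have hxr : (3 : ℝ) ≤ x := by exact_mod_cast hx3
  have hlog : 1 ≤ Real.log x := by
    rw [Real.le_log_iff_exp_le (by linarith)]
    have := Real.exp_one_lt_d9
    linarith
  have h1 := (h x (le_trans (le_max_left _ _) hx) 1 ⟨one_ne_zero⟩ (by simp) 1 H hH1 hH2).1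
  have hH0 : (0 : ℝ) < H := lt_of_lt_of_le (by positivity) hH1
  have h2 : ∀ m : ℕ, ‖∑ n ∈ Ioc m (m + H), (cL (1 : DirichletCharacter ℂ 1) n - (if (1 : DirichletCharacter ℂ 1) = 1 then 1 else 0))‖ =
      |wl m H - H| := by
    intro m
    have e1 : ∑ n ∈ Ioc m (m + H), (cL (1 : DirichletCharacter ℂ 1) n - (if (1 : DirichletCharacter ℂ 1) = 1 then 1 else 0)) =
        ((wl m H - H : ℝ) : ℂ) := by
      unfold cL wl
      rw [sum_sub_distrib]
      push_cast
      congr 1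
      · refine sum_congr rfl fun n _ => ?_
        have : (1 : DirichletCharacter ℂ 1) (n : ZMod 1) = 1 := MulChar.one_apply (isUnit_of_subsingleton _)
        rw [this, one_mul]
      · simp
    rw [e1, Complex.norm_real, Real.norm_eq_abs]
  have h1b : ∑ m ∈ Ioc x (2 * x), |wl m H - H| ^ 2 ≤ x * (H : ℝ) ^ 2 / Real.log x ^ U := by
    refine le_trans (le_of_eq (sum_congr rfl fun m _ => ?_)) h1
    rw [← h2 m]
  set T := (Ioc x (2 * x)).filter (fun m => wl m H < H / 2) with hT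
  have h3 : (#T : ℝ) * ((H : ℝ) / 2) ^ 2 ≤ ∑ m ∈ Ioc x (2 * x), |wl m H - H| ^ 2 := by
    calc (#T : ℝ) * ((H : ℝ) / 2) ^ 2 = ∑ m ∈ T, ((H : ℝ) / 2) ^ 2 := by rw [sum_const, nsmul_eq_mul]
      _ ≤ ∑ m ∈ T, |wl m H - H| ^ 2 := by
          refine sum_le_sum fun m hm => ?_
          have hm2 := (mem_filter.mp hm).2
          apply pow_le_pow_left₀ (by positivity)
          rw [abs_sub_comm]
          exact le_trans (by linarith) (le_abs_self _)
      _ ≤ _ := sum_le_sum_of_subset_of_nonneg (filter_subset _ _) fun _ _ _ => by positivity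
  have h4 := h3.trans h1b
  have hl : 0 < Real.log x ^ U := by positivity
  rw [le_div_iff₀ hl]
  rw [le_div_iff₀ hl] at h4
  have h5 : (#T : ℝ) * Real.log x ^ U * (H : ℝ) ^ 2 ≤ 4 * x * (H : ℝ) ^ 2 := by nlinarith
  exact le_of_mul_le_mul_right h5 (by positivity)

/-- squares in the window -/
lemma sq_window (m H : ℕ) (hm : 1 ≤ m) :
    ((Nat.sqrt (m + H) - Nat.sqrt m : ℕ) : ℝ) ≤ H / Nat.sqrt m + 1 := by
  set s := Nat.sqrt m with hs
  have hs1 : 1 ≤ s := by
    rw [hs, Nat.le_sqrt']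
    simpa using hm
  have h1 : m < (s + 1) ^ 2 := by
    have := Nat.lt_succ_sqrt' m
    rwa [← hs] at this
  obtain ⟨t, ht⟩ : ∃ t, t = Nat.sqrt (m + H) - s := ⟨_, rfl⟩
  have hle : s ≤ Nat.sqrt (m + H) := Nat.sqrt_le_sqrt (by omega)
  have h2 : (s + t) ^ 2 ≤ m + H := by
    have := Nat.sqrt_le' (m + H)
    rwa [show Nat.sqrt (m + H) = s + t by omega] at this
  rw [← ht]
  have hs0 : (0 : ℝ) < s := by exact_mod_cast hs1
  have h1' : (m : ℝ) ≤ s ^ 2 + 2 * s := by
    have : m ≤ s ^ 2 + 2 * s := by nlinarith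
    exact_mod_cast this
  have h2' : ((s : ℝ) + t) ^ 2 ≤ m + H := by exact_mod_cast h2
  have h3 : (2 * s : ℝ) * t ≤ 2 * s + H := by nlinarith [sq_nonneg (t : ℝ)]
  have h4 : (t : ℝ) ≤ (2 * s + H) / (2 * s) := by
    rw [le_div_iff₀ (by positivity)]
    linarith
  have h5 : (2 * (s : ℝ) + H) / (2 * s) = 1 + H / (2 * s) := by field_simp
  have h6 : (H : ℝ) / (2 * s) ≤ H / s := by
    apply div_le_div_of_nonneg_left (by positivity) hs0 (by linarith)
  linarith

lemma wl_le (m H : ℕ) (hm : 1 ≤ m) (hH : H ≤ m) :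
    wl m H ≤ Real.log (2 * m) * (wp m H + (H / Nat.sqrt m + 1) + Nat.log 2 (2 * m) * (2 * (m : ℝ)) ^ (1 / 3 : ℝ)) := by
  classical
  have hmr : (1 : ℝ) ≤ m := by exact_mod_cast hm
  set R : ℕ := ⌊(2 * (m : ℝ)) ^ (1 / 3 : ℝ)⌋₊ with hR
  set A1 := (Ioc m (m + H)).filter Nat.Prime with hA1
  set A2 := (Ioc (Nat.sqrt m) (Nat.sqrt (m + H))).image (fun s => s ^ 2) with hA2
  set A3 := ((Icc 1 (Nat.log 2 (2 * m))) ×ˢ (Icc 1 R)).image (fun z => z.2 ^ z.1) with hA3
  have h1 : wl m H = ∑ n ∈ (Ioc m (m + H)).filter IsPrimePow, ArithmeticFunction.vonMangoldt n := by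
    unfold wl
    rw [sum_filter]
    refine sum_congr rfl fun n _ => ?_
    split_ifs with h
    · rfl
    · exact ArithmeticFunction.vonMangoldt_eq_zero_iff.mpr h
  have h2 : ∑ n ∈ (Ioc m (m + H)).filter IsPrimePow, ArithmeticFunction.vonMangoldt n ≤
      #((Ioc m (m + H)).filter IsPrimePow) * Real.log (2 * m) := by
    rw [← nsmul_eq_mul, ← sum_const]
    refine sum_le_sum fun n hn => ?_
    rw [mem_filter, mem_Ioc] at hn
    refine ArithmeticFunction.vonMangoldt_le_log.trans ?_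
    apply Real.log_le_log (by exact_mod_cast (by omega : 0 < n))
    exact_mod_cast (by omega : n ≤ 2 * m)
  have h3 : (Ioc m (m + H)).filter IsPrimePow ⊆ A1 ∪ A2 ∪ A3 := by
    intro n hn
    rw [mem_filter, mem_Ioc] at hn
    obtain ⟨⟨hn1, hn2⟩, hn3⟩ := hn
    rw [isPrimePow_nat_iff] at hn3
    obtain ⟨p, k, hp, hk, rfl⟩ := hn3
    rw [mem_union, mem_union]
    rcases Nat.lt_or_ge k 2 with hk2 | hk2
    · have : k = 1 := by omega
      subst this
      left; left
      rw [hA1, mem_filter, mem_Ioc]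
      rw [pow_one] at hn1 hn2 ⊢
      exact ⟨⟨hn1, hn2⟩, hp⟩
    · rcases Nat.lt_or_ge k 3 with hk3 | hk3
      · have : k = 2 := by omega
        subst this
        left; right
        rw [hA2, mem_image]
        refine ⟨p, ?_, rfl⟩
        rw [mem_Ioc]
        exact ⟨Nat.sqrt_lt'.mpr hn1, Nat.le_sqrt'.mpr hn2⟩
      · right
        rw [hA3, mem_image]
        refine ⟨(k, p), ?_, rfl⟩
        have hle : p ^ k ≤ 2 * m := by omega
        rw [mem_product, mem_Icc, mem_Icc]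
        refine ⟨⟨by omega, ?_⟩, hp.one_lt.le, ?_⟩
        · show k ≤ Nat.log 2 (2 * m)
          apply Nat.le_log_of_pow_le (by norm_num)
          exact (Nat.pow_le_pow_left hp.two_le k).trans hle
        · show p ≤ R
          rw [hR]
          apply Nat.le_floor
          have h4 : (p : ℝ) ^ 3 ≤ 2 * m := by
            have : p ^ 3 ≤ 2 * m := (Nat.pow_le_pow_right hp.pos hk3).trans hle
            exact_mod_cast this
          have h5 : (p : ℝ) = ((p : ℝ) ^ (3 : ℕ)) ^ (1 / 3 : ℝ) := by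
            rw [← Real.rpow_natCast, ← Real.rpow_mul (Nat.cast_nonneg p)]
            norm_num
          rw [h5]
          exact Real.rpow_le_rpow (by positivity) h4 (by norm_num)
  have h4 : #((Ioc m (m + H)).filter IsPrimePow) ≤ #A1 + #A2 + #A3 :=
    (card_le_card h3).trans ((card_union_le _ _).trans (Nat.add_le_add_right (card_union_le _ _) _))
  have h5 : (#A2 : ℝ) ≤ H / Nat.sqrt m + 1 := by
    refine le_trans ?_ (sq_window m H hm)
    have : #A2 ≤ Nat.sqrt (m + H) - Nat.sqrt m := by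
      refine card_image_le.trans ?_
      rw [Nat.card_Ioc]
    exact_mod_cast this
  have h6 : (#A3 : ℝ) ≤ Nat.log 2 (2 * m) * (2 * (m : ℝ)) ^ (1 / 3 : ℝ) := by
    have h7 : #A3 ≤ Nat.log 2 (2 * m) * R := by
      refine card_image_le.trans ?_
      rw [card_product, Nat.card_Icc, Nat.card_Icc]
      simp
    have h8 : (#A3 : ℝ) ≤ Nat.log 2 (2 * m) * R := by exact_mod_cast h7
    refine h8.trans ?_
    apply mul_le_mul_of_nonneg_left _ (Nat.cast_nonneg _)
    rw [hR]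
    exact Nat.floor_le (by positivity)
  have h9 : (#((Ioc m (m + H)).filter IsPrimePow) : ℝ) ≤
      wp m H + (H / Nat.sqrt m + 1) + Nat.log 2 (2 * m) * (2 * (m : ℝ)) ^ (1 / 3 : ℝ) := by
    have h10 : (#((Ioc m (m + H)).filter IsPrimePow) : ℝ) ≤ #A1 + #A2 + #A3 := by exact_mod_cast h4
    have h11 : (#A1 : ℝ) = wp m H := rfl
    linarith
  have hl0 : 0 ≤ Real.log (2 * m) := Real.log_nonneg (by linarith)
  rw [h1]
  refine h2.trans ?_
  rw [mul_comm]
  exact mul_le_mul_of_nonneg_left h9 hl0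

end Pool.Agent.V8H10.GS
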