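import Pool.Agent.V8H10.GS.Win

/-!
# Primes in almost all short windows: the number of exceptions up to `Z`
-/

set_option autoImplicit false

open Finset Filter Topology

namespace Pool.Agent.V8H10.GS

lemma ev_nat (P : ℝ → Prop) (h : ∀ᶠ x : ℝ in atTop, P x) : ∃ x0 : ℕ, ∀ x : ℕ, x0 ≤ x → P x := by
  obtain ⟨x0, hx0⟩ := eventually_atTop.mp h
  exact ⟨⌈x0⌉₊, fun x hx => hx0 x (Nat.ceil_le.mp hx)⟩

/-- prime powers contribute at most a quarter -/
lemma wl_le_primes : ∃ m0 : ℕ, ∀ m : ℕ, m0 ≤ m → ∀ H : ℕ, (m : ℝ) ^ (1 / 3 : ℝ) * Real.log m ^ 3 ≤ H → H ≤ m →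
    wl m H ≤ 2 * Real.log m * wp m H + H / 4 := by
  obtain ⟨m0, hm0⟩ := ev_nat (fun m => 1024 ≤ Real.log m ∧ 64 * Real.log m ≤ m ^ (1 / 3 : ℝ)) (by
    refine (Real.tendsto_log_atTop.eventually (eventually_ge_atTop 1024)).and ?_
    have := (isLittleO_log_rpow_atTop (by norm_num : (0 : ℝ) < 1 / 3)).bound
      (by norm_num : (0 : ℝ) < 1 / 64)
    filter_upwards [this, eventually_ge_atTop 1] with x h1 h2
    rw [Real.norm_of_nonneg (Real.log_nonneg h2), Real.norm_of_nonneg (by positivity)] at h1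
    linarith)
  refine ⟨max m0 4, fun m hm H hH1 hH2 => ?_⟩
  have hm4 : 4 ≤ m := le_trans (le_max_right _ _) hm
  have hmr : (4 : ℝ) ≤ m := by exact_mod_cast hm4
  obtain ⟨hl, hm3⟩ := hm0 m (le_trans (le_max_left _ _) hm)
  set l := Real.log m with hlm
  have h1 := wl_le m H (by omega) hH2
  have hl2m : Real.log (2 * m) ≤ 2 * l := by
    rw [Real.log_mul (by norm_num) (by positivity)]
    have := Real.log_two_lt_d9
    linarith
  have hwp : (0 : ℝ) ≤ wp m H := Nat.cast_nonneg _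
  have hH0 : (0 : ℝ) ≤ H := Nat.cast_nonneg _
  -- the square root
  have hsq : 32 * l ≤ Nat.sqrt m := by
    have h2 : (m : ℝ) < (Nat.sqrt m + 1) ^ 2 := by
      have := Nat.lt_succ_sqrt' m
      exact_mod_cast this
    have h3 : (m : ℝ) ^ (1 / 3 : ℝ) ≤ Real.sqrt m := by
      rw [Real.sqrt_eq_rpow]
      exact Real.rpow_le_rpow_of_exponent_le (by linarith) (by norm_num)
    have h4 : Real.sqrt m ≤ Nat.sqrt m + 1 := by
      rw [Real.sqrt_le_left (by positivity)]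
      exact h2.le
    linarith
  have hs0 : (0 : ℝ) < Nat.sqrt m := by linarith
  have hlog2 : (Nat.log 2 (2 * m) : ℝ) ≤ 4 * l := by
    have h2 : (2 : ℝ) ^ (Nat.log 2 (2 * m)) ≤ 2 * m := by
      have := Nat.pow_log_le_self 2 (show 2 * m ≠ 0 by omega)
      exact_mod_cast this
    have h3 := Real.log_le_log (by positivity) h2
    rw [Real.log_pow] at h3
    have := Real.log_two_gt_d9
    have h5 : (0 : ℝ) ≤ Nat.log 2 (2 * m) := Nat.cast_nonneg _
    nlinarith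
  have hcube : (2 * (m : ℝ)) ^ (1 / 3 : ℝ) ≤ 2 * (m : ℝ) ^ (1 / 3 : ℝ) := by
    rw [Real.mul_rpow (by norm_num) (by positivity)]
    apply mul_le_mul_of_nonneg_right _ (by positivity)
    calc (2 : ℝ) ^ (1 / 3 : ℝ) ≤ (2 : ℝ) ^ (1 : ℝ) := Real.rpow_le_rpow_of_exponent_le (by norm_num) (by norm_num)
      _ = 2 := by norm_num
  have hm3' : 0 < (m : ℝ) ^ (1 / 3 : ℝ) := by positivity
  have ht : (Nat.log 2 (2 * m) : ℝ) * (2 * (m : ℝ)) ^ (1 / 3 : ℝ) ≤ 4 * l * (2 * (m : ℝ) ^ (1 / 3 : ℝ)) := by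
    apply mul_le_mul hlog2 hcube (by positivity) (by positivity)
  have hA : 2 * l * (H / Nat.sqrt m) ≤ H / 16 := by
    rw [mul_div_assoc', div_le_iff₀ hs0]
    nlinarith
  have hB : 2 * l ≤ H / 16 := by
    have h5 : 1 ≤ l := by linarith
    have h6 : (m : ℝ) ^ (1 / 3 : ℝ) * 1 ≤ (m : ℝ) ^ (1 / 3 : ℝ) * l ^ 3 := by
      apply mul_le_mul_of_nonneg_left _ hm3'.le
      exact one_le_pow₀ h5
    nlinarith
  have hC : 2 * l * (4 * l * (2 * (m : ℝ) ^ (1 / 3 : ℝ))) ≤ H / 16 := by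
    have h6 : 2 * l * (4 * l * (2 * (m : ℝ) ^ (1 / 3 : ℝ))) = 16 * ((m : ℝ) ^ (1 / 3 : ℝ) * l ^ 2) := by ring
    rw [h6]
    have h7 : (m : ℝ) ^ (1 / 3 : ℝ) * l ^ 3 = l * ((m : ℝ) ^ (1 / 3 : ℝ) * l ^ 2) := by ring
    rw [h7] at hH1
    have h8 : 0 ≤ (m : ℝ) ^ (1 / 3 : ℝ) * l ^ 2 := by positivity
    nlinarith
  have hE0 : (0 : ℝ) ≤ wp m H + (H / Nat.sqrt m + 1) + Nat.log 2 (2 * m) * (2 * (m : ℝ)) ^ (1 / 3 : ℝ) := by positivity
  have h9 : wl m H ≤ 2 * l * (wp m H + (H / Nat.sqrt m + 1) + Nat.log 2 (2 * m) * (2 * (m : ℝ)) ^ (1 / 3 : ℝ)) :=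
    h1.trans (mul_le_mul_of_nonneg_right hl2m hE0)
  have h10 : 2 * l * (Nat.log 2 (2 * m) * (2 * (m : ℝ)) ^ (1 / 3 : ℝ)) ≤ 2 * l * (4 * l * (2 * (m : ℝ) ^ (1 / 3 : ℝ))) :=
    mul_le_mul_of_nonneg_left ht (by positivity)
  nlinarith

/-- the window `(m, m + H]` has few primes -/
def Bad (L : ℝ) (H m : ℕ) : Prop := 16 * L * wp m H < H

open Classical in
lemma bad_block (U : ℕ) : ∃ C x0 : ℕ, ∀ x : ℕ, x0 ≤ x → ∀ H : ℕ, (x : ℝ) ^ (1 / 3 : ℝ) * Real.log x ^ C ≤ H →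
    H ≤ x → ∀ L : ℝ, Real.log x ≤ L →
      (#((Ioc x (2 * x)).filter (fun m => Bad L H m)) : ℝ) ≤ 4 * x / Real.log x ^ U := by
  obtain ⟨C, x0, h⟩ := bad_lambda U
  obtain ⟨m0, hm0⟩ := wl_le_primes
  refine ⟨C + 4, max (max x0 m0) 10000000, fun x hx H hH1 hH2 L hL => ?_⟩
  have hx0 : x0 ≤ x := le_trans (le_trans (le_max_left _ _) (le_max_left _ _)) hx
  have hxm : m0 ≤ x := le_trans (le_trans (le_max_right _ _) (le_max_left _ _)) hx
  have hxb : 10000000 ≤ x := le_trans (le_max_right _ _) hx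
  have hxr : (10000000 : ℝ) ≤ x := by exact_mod_cast hxb
  have hlog : 16 ≤ Real.log x := by
    rw [Real.le_log_iff_exp_le (by linarith)]
    have h1 := Real.exp_one_lt_d9
    have h2 : Real.exp 16 = Real.exp 1 ^ 16 := by rw [← Real.exp_nat_mul]; norm_num
    rw [h2]
    have h3 : Real.exp 1 ^ 16 ≤ (2.7182818286 : ℝ) ^ 16 := pow_le_pow_left₀ (Real.exp_pos 1).le h1.le 16
    refine h3.trans (le_trans ?_ hxr)
    norm_num
  have hx3 : 0 ≤ (x : ℝ) ^ (1 / 3 : ℝ) := by positivity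
  have hHa : (x : ℝ) ^ (1 / 3 : ℝ) * Real.log x ^ C ≤ H := by
    refine le_trans ?_ hH1
    apply mul_le_mul_of_nonneg_left _ hx3
    exact pow_le_pow_right₀ (by linarith) (by omega)
  refine le_trans ?_ (h x hx0 H hHa hH2)
  have hsub : (Ioc x (2 * x)).filter (fun m => Bad L H m) ⊆ (Ioc x (2 * x)).filter (fun m => wl m H < H / 2) := by
    intro m hm
    rw [mem_filter, mem_Ioc] at hm ⊢
    obtain ⟨⟨hm1, hm2⟩, hm3⟩ := hm
    refine ⟨⟨hm1, hm2⟩, ?_⟩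
    have hmx : (m : ℝ) ≤ 2 * x := by exact_mod_cast hm2
    have hm0' : (0 : ℝ) < m := by exact_mod_cast (by omega : 0 < m)
    have hlm : Real.log m ≤ 2 * Real.log x := by
      have h1 : Real.log m ≤ Real.log (2 * x) := Real.log_le_log hm0' hmx
      rw [Real.log_mul (by norm_num) (by positivity)] at h1
      have := Real.log_two_lt_d9
      linarith
    have hlm0 : 0 ≤ Real.log m := Real.log_nonneg (by exact_mod_cast (by omega : 1 ≤ m))
    have hH3 : (m : ℝ) ^ (1 / 3 : ℝ) * Real.log m ^ 3 ≤ H := by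
      refine le_trans ?_ hH1
      have h1 : (m : ℝ) ^ (1 / 3 : ℝ) ≤ 2 * (x : ℝ) ^ (1 / 3 : ℝ) := by
        calc (m : ℝ) ^ (1 / 3 : ℝ) ≤ (2 * (x : ℝ)) ^ (1 / 3 : ℝ) :=
              Real.rpow_le_rpow hm0'.le hmx (by norm_num)
          _ = (2 : ℝ) ^ (1 / 3 : ℝ) * (x : ℝ) ^ (1 / 3 : ℝ) := Real.mul_rpow (by norm_num) (by positivity)
          _ ≤ 2 * (x : ℝ) ^ (1 / 3 : ℝ) := by
              apply mul_le_mul_of_nonneg_right _ hx3
              calc (2 : ℝ) ^ (1 / 3 : ℝ) ≤ (2 : ℝ) ^ (1 : ℝ) :=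
                    Real.rpow_le_rpow_of_exponent_le (by norm_num) (by norm_num)
                _ = 2 := by norm_num
      have h2 : Real.log m ^ 3 ≤ (2 * Real.log x) ^ 3 := pow_le_pow_left₀ hlm0 hlm 3
      calc (m : ℝ) ^ (1 / 3 : ℝ) * Real.log m ^ 3 ≤ (2 * (x : ℝ) ^ (1 / 3 : ℝ)) * (2 * Real.log x) ^ 3 := by
            apply mul_le_mul h1 h2 (by positivity) (by positivity)
        _ = (x : ℝ) ^ (1 / 3 : ℝ) * (16 * Real.log x ^ 3) := by ring
        _ ≤ (x : ℝ) ^ (1 / 3 : ℝ) * Real.log x ^ (C + 4) := by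
            apply mul_le_mul_of_nonneg_left _ hx3
            have h5 : Real.log x ^ 4 ≤ Real.log x ^ (C + 4) := pow_le_pow_right₀ (by linarith) (by omega)
            refine le_trans ?_ h5
            have h6 : 0 ≤ Real.log x ^ 3 := by positivity
            calc 16 * Real.log x ^ 3 ≤ Real.log x * Real.log x ^ 3 := mul_le_mul_of_nonneg_right hlog h6
              _ = Real.log x ^ 4 := by ring
    have h4 := hm0 m (by omega) H hH3 (by omega)
    have hwp : (0 : ℝ) ≤ wp m H := Nat.cast_nonneg _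
    have h5 : 2 * Real.log m * wp m H ≤ 4 * L * wp m H := by
      apply mul_le_mul_of_nonneg_right _ hwp
      linarith
    unfold Bad at hm3
    have hH0 : (0 : ℝ) ≤ H := Nat.cast_nonneg _
    nlinarith
  exact_mod_cast card_le_card hsub

end Pool.Agent.V8H10.GS
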