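import Pool.Agent.V8H10.GS.Win2

/-!
# Primes in almost all short windows: the number of exceptions up to `22 x log x`
-/

set_option autoImplicit false

open Finset Filter Topology

namespace Pool.Agent.V8H10.GS

/-- facts for large `x` -/
lemma ev_facts (B : ℕ) (K x1 : ℝ) : ∃ x0 : ℕ, 1 ≤ x0 ∧ ∀ x : ℕ, x0 ≤ x → K ≤ Real.log x ∧
    (x : ℝ) ^ (9 / 10 : ℝ) + 1 ≤ x / Real.log x ^ (B + 1) ∧ x1 ≤ (x : ℝ) ^ (9 / 10 : ℝ) := by
  obtain ⟨x0, hx0⟩ := ev_nat (fun x => K ≤ Real.log x ∧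
    x ^ (9 / 10 : ℝ) + 1 ≤ x / Real.log x ^ (B + 1) ∧ x1 ≤ x ^ (9 / 10 : ℝ)) (by
    refine (Real.tendsto_log_atTop.eventually (eventually_ge_atTop K)).and (Filter.Eventually.and ?_
      ((tendsto_rpow_atTop (by norm_num : (0 : ℝ) < 9 / 10)).eventually_ge_atTop x1))
    have h1 := (isLittleO_log_rpow_rpow_atTop ((B + 1 : ℕ) : ℝ) (by norm_num : (0 : ℝ) < 1 / 10)).bound
      (by norm_num : (0 : ℝ) < 1 / 2)
    filter_upwards [h1, eventually_gt_atTop (1 : ℝ), Real.tendsto_log_atTop.eventually (eventually_ge_atTop (1 : ℝ))]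
      with x h1 h2 h3
    have hx0 : 0 < x := by linarith
    rw [Real.rpow_natCast, Real.norm_of_nonneg (by positivity), Real.norm_of_nonneg (by positivity)] at h1
    have hl : 0 < Real.log x ^ (B + 1) := by positivity
    rw [le_div_iff₀ hl]
    have h9 : 1 ≤ x ^ (9 / 10 : ℝ) := Real.one_le_rpow h2.le (by norm_num)
    calc (x ^ (9 / 10 : ℝ) + 1) * Real.log x ^ (B + 1) ≤ (2 * x ^ (9 / 10 : ℝ)) * (1 / 2 * x ^ (1 / 10 : ℝ)) := by
          apply mul_le_mul (by linarith) h1 hl.le (by positivity)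
      _ = x ^ (9 / 10 : ℝ) * x ^ (1 / 10 : ℝ) := by ring
      _ = x := by
          rw [← Real.rpow_add hx0]
          norm_num)
  exact ⟨max x0 1, le_max_right _ _, fun x hx => hx0 x (le_trans (le_max_left _ _) hx)⟩

lemma le_two_pow_sub (J : ℕ) (h : 1 ≤ J) : J ≤ 2 ^ (J - 1) := by
  obtain ⟨k, rfl⟩ : ∃ k, J = k + 1 := ⟨J - 1, by omega⟩
  exact Nat.lt_two_pow_self

lemma dyadic_count (P : ℕ → Prop) [DecidablePred P] (x0 : ℕ) (I : ℕ) :
    #((Ioc x0 (2 ^ I * x0)).filter P) = ∑ i ∈ range I, #((Ioc (2 ^ i * x0) (2 * (2 ^ i * x0))).filter P) := by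
  induction I with
  | zero => simp
  | succ I ih =>
    rw [sum_range_succ, ← ih]
    have h1 : x0 ≤ 2 ^ I * x0 := Nat.le_mul_of_pos_left _ (by positivity)
    have h2 : 2 ^ I * x0 ≤ 2 * (2 ^ I * x0) := by omega
    have h3 : 2 ^ (I + 1) * x0 = 2 * (2 ^ I * x0) := by ring
    rw [h3, ← Ioc_union_Ioc_eq_Ioc h1 h2, filter_union, card_union_of_disjoint]
    refine disjoint_filter_filter ?_
    rw [disjoint_left]
    intro a ha hb
    rw [mem_Ioc] at ha hb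
    omega

open Classical in
/-- the exceptions -/
theorem bad_total (B : ℕ) : ∃ C x0 : ℕ, ∀ x : ℕ, x0 ≤ x → ∀ H : ℕ, (x : ℝ) ^ (1 / 3 : ℝ) * Real.log x ^ C ≤ H →
    (H : ℝ) ≤ (x : ℝ) ^ (9 / 10 : ℝ) →
    (#((Ioc ⌊(x : ℝ) / Real.log x ^ (B + 1)⌋₊ ⌊22 * (x : ℝ) * Real.log x⌋₊).filter
      (fun m => Bad (2 * Real.log x) H m)) : ℝ) ≤ x / (4 * Real.log x ^ B) := by
  obtain ⟨C, x1, hb⟩ := bad_block (2 * B + 4)
  obtain ⟨x0, hx01, hf⟩ := ev_facts B (max 1000 (15488 * 2 ^ (2 * B + 4))) (max 4 x1)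
  refine ⟨2 * C + 1, x0, fun x hx H hH1 hH2 => ?_⟩
  obtain ⟨f1, f2, f3⟩ := hf x hx
  set L := Real.log x with hL
  have hL1 : 1000 ≤ L := le_trans (le_max_left _ _) f1
  have hL2 : 15488 * 2 ^ (2 * B + 4) ≤ L := le_trans (le_max_right _ _) f1
  have hxpos : 1 ≤ x := le_trans hx01 hx
  have hx0 : (0 : ℝ) < x := by exact_mod_cast hxpos
  have hx1r : (1 : ℝ) ≤ x := by exact_mod_cast hxpos
  set X0 := ⌊(x : ℝ) / L ^ (B + 1)⌋₊ with hX0
  set Z := ⌊22 * (x : ℝ) * L⌋₊ with hZ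
  have hX0lo : (x : ℝ) ^ (9 / 10 : ℝ) ≤ X0 := by
    have := Nat.lt_floor_add_one ((x : ℝ) / L ^ (B + 1))
    rw [← hX0] at this
    linarith
  have hX0hi : (X0 : ℝ) ≤ x / L ^ (B + 1) := Nat.floor_le (by positivity)
  have hX0pos : (0 : ℝ) < X0 := by
    have : 4 ≤ (x : ℝ) ^ (9 / 10 : ℝ) := le_trans (le_max_left _ _) f3
    linarith
  have hX0half : (x : ℝ) / (2 * L ^ (B + 1)) ≤ X0 := by
    have h1 := Nat.lt_floor_add_one ((x : ℝ) / L ^ (B + 1))
    rw [← hX0] at h1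
    have h2 : 4 ≤ (x : ℝ) ^ (9 / 10 : ℝ) := le_trans (le_max_left _ _) f3
    have h3 : (x : ℝ) / (2 * L ^ (B + 1)) = (x / L ^ (B + 1)) / 2 := by field_simp
    rw [h3]
    linarith
  have hx1X0 : x1 ≤ X0 := by
    have : (x1 : ℝ) ≤ (x : ℝ) ^ (9 / 10 : ℝ) := le_trans (le_max_right _ _) f3
    exact_mod_cast this.trans hX0lo
  have hZhi : (Z : ℝ) ≤ 22 * x * L := Nat.floor_le (by positivity)
  -- the number of blocks
  have hex : ∃ J : ℕ, Z ≤ 2 ^ J * X0 := by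
    refine ⟨Z, ?_⟩
    have h1 : Z ≤ 2 ^ Z := Nat.lt_two_pow_self.le
    have h2 : 1 ≤ X0 := by exact_mod_cast hX0pos
    exact h1.trans (Nat.le_mul_of_pos_right _ h2)
  obtain ⟨J, hJ1, hJ2⟩ : ∃ J : ℕ, Z ≤ 2 ^ J * X0 ∧ ∀ j < J, 2 ^ j * X0 < Z := by
    classical
    exact ⟨Nat.find hex, Nat.find_spec hex, fun j hj => not_le.mp (Nat.find_min hex hj)⟩
  have hxj : ∀ j < J, ((2 ^ j * X0 : ℕ) : ℝ) ≤ 22 * x * L := by
    intro j hj
    refine le_trans ?_ hZhi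
    exact_mod_cast (hJ2 j hj).le
  have hJL : (J : ℝ) ≤ 44 * L ^ (B + 2) := by
    rcases Nat.eq_zero_or_pos J with h0 | h0
    · rw [h0]
      push_cast
      positivity
    · have h1 := hxj (J - 1) (by omega)
      have h2 := le_two_pow_sub J h0
      have h2' : (J : ℝ) ≤ ((2 ^ (J - 1) : ℕ) : ℝ) := by exact_mod_cast h2
      refine h2'.trans ?_
      have h3 : ((2 ^ (J - 1) * X0 : ℕ) : ℝ) = ((2 ^ (J - 1) : ℕ) : ℝ) * X0 := by push_cast; ring
      rw [h3] at h1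
      have h4 : ((2 ^ (J - 1) : ℕ) : ℝ) * (x / (2 * L ^ (B + 1))) ≤ 22 * x * L :=
        le_trans (mul_le_mul_of_nonneg_left hX0half (Nat.cast_nonneg _)) h1
      rw [mul_div_assoc', div_le_iff₀ (by positivity)] at h4
      have h5 : ((2 ^ (J - 1) : ℕ) : ℝ) * x ≤ (44 * L ^ (B + 2)) * x := by
        calc ((2 ^ (J - 1) : ℕ) : ℝ) * x ≤ 22 * x * L * (2 * L ^ (B + 1)) := h4
          _ = (44 * L ^ (B + 2)) * x := by ring
      exact le_of_mul_le_mul_right h5 hx0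
  have hlogX0 : L / 2 ≤ Real.log X0 := by
    have h1 : Real.log ((x : ℝ) ^ (9 / 10 : ℝ)) ≤ Real.log X0 := Real.log_le_log (by positivity) hX0lo
    rw [Real.log_rpow hx0] at h1
    linarith
  have hsmall : 22 * (x : ℝ) * L ≤ x * L ^ 2 := by nlinarith
  have hsmall2 : Real.log (x * L ^ 2) ≤ 2 * L := by
    rw [Real.log_mul (by positivity) (by positivity), Real.log_pow]
    have h1 : Real.log L ≤ L / 2 := by
      have h2 := Real.add_one_le_exp (L / 2 - Real.log 2 - 1)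
      have h4 : Real.log (L / 2) ≤ L / 2 - 1 := Real.log_le_sub_one_of_pos (by positivity)
      rw [Real.log_div (by positivity) (by norm_num)] at h4
      have := Real.log_two_lt_d9
      linarith
    push_cast
    linarith
  have hblock : ∀ j ∈ range J, (#((Ioc (2 ^ j * X0) (2 * (2 ^ j * X0))).filter (fun m => Bad (2 * L) H m)) : ℝ) ≤
      88 * x * L * 2 ^ (2 * B + 4) / L ^ (2 * B + 4) := by
    intro j hj
    rw [mem_range] at hj
    have h1 := hxj j hj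
    have h2 : X0 ≤ 2 ^ j * X0 := Nat.le_mul_of_pos_left _ (by positivity)
    have h2r : (X0 : ℝ) ≤ ((2 ^ j * X0 : ℕ) : ℝ) := by exact_mod_cast h2
    have hpos : (0 : ℝ) < ((2 ^ j * X0 : ℕ) : ℝ) := lt_of_lt_of_le hX0pos h2r
    have hlj : Real.log ((2 ^ j * X0 : ℕ) : ℝ) ≤ 2 * L :=
      le_trans (Real.log_le_log hpos (h1.trans hsmall)) hsmall2
    have hlj2 : L / 2 ≤ Real.log ((2 ^ j * X0 : ℕ) : ℝ) := hlogX0.trans (Real.log_le_log hX0pos h2r)
    have hHlo : (((2 ^ j * X0 : ℕ) : ℝ)) ^ (1 / 3 : ℝ) * Real.log ((2 ^ j * X0 : ℕ) : ℝ) ^ C ≤ H := by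
      refine le_trans ?_ hH1
      have g1 : (((2 ^ j * X0 : ℕ) : ℝ)) ^ (1 / 3 : ℝ) ≤ (x : ℝ) ^ (1 / 3 : ℝ) * L := by
        calc (((2 ^ j * X0 : ℕ) : ℝ)) ^ (1 / 3 : ℝ) ≤ (x * L ^ 2) ^ (1 / 3 : ℝ) :=
              Real.rpow_le_rpow hpos.le (h1.trans hsmall) (by norm_num)
          _ = (x : ℝ) ^ (1 / 3 : ℝ) * (L ^ 2) ^ (1 / 3 : ℝ) := Real.mul_rpow hx0.le (by positivity)
          _ ≤ (x : ℝ) ^ (1 / 3 : ℝ) * L := by
              apply mul_le_mul_of_nonneg_left _ (by positivity)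
              rw [← Real.rpow_natCast L 2, ← Real.rpow_mul (by linarith)]
              calc L ^ (((2 : ℕ) : ℝ) * (1 / 3)) ≤ L ^ (1 : ℝ) :=
                    Real.rpow_le_rpow_of_exponent_le (by linarith) (by norm_num)
                _ = L := Real.rpow_one L
      have g2 : Real.log ((2 ^ j * X0 : ℕ) : ℝ) ^ C ≤ L ^ (2 * C) := by
        calc Real.log ((2 ^ j * X0 : ℕ) : ℝ) ^ C ≤ (L ^ 2) ^ C := by
              apply pow_le_pow_left₀ (by linarith)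
              nlinarith
          _ = L ^ (2 * C) := by rw [← pow_mul]
      calc (((2 ^ j * X0 : ℕ) : ℝ)) ^ (1 / 3 : ℝ) * Real.log ((2 ^ j * X0 : ℕ) : ℝ) ^ C ≤
          ((x : ℝ) ^ (1 / 3 : ℝ) * L) * L ^ (2 * C) := by
            apply mul_le_mul g1 g2 _ (by positivity)
            apply pow_nonneg
            linarith
        _ = (x : ℝ) ^ (1 / 3 : ℝ) * L ^ (2 * C + 1) := by ring
    have hHhi : H ≤ 2 ^ j * X0 := by
      have : (H : ℝ) ≤ ((2 ^ j * X0 : ℕ) : ℝ) := hH2.trans (hX0lo.trans h2r)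
      exact_mod_cast this
    have h3 := hb (2 ^ j * X0) (hx1X0.trans h2) H hHlo hHhi (2 * L) hlj
    refine h3.trans ?_
    have h4 : 0 < Real.log ((2 ^ j * X0 : ℕ) : ℝ) := by linarith
    have h5 : (L / 2) ^ (2 * B + 4) ≤ Real.log ((2 ^ j * X0 : ℕ) : ℝ) ^ (2 * B + 4) :=
      pow_le_pow_left₀ (by positivity) hlj2 _
    calc 4 * ((2 ^ j * X0 : ℕ) : ℝ) / Real.log ((2 ^ j * X0 : ℕ) : ℝ) ^ (2 * B + 4) ≤
        4 * (22 * x * L) / (L / 2) ^ (2 * B + 4) := by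
          apply div_le_div₀ (by positivity) (by linarith) (by positivity) h5
      _ = 88 * x * L * 2 ^ (2 * B + 4) / L ^ (2 * B + 4) := by
          rw [div_pow]
          field_simp
          ring
  have hcount : (#((Ioc X0 Z).filter (fun m => Bad (2 * L) H m)) : ℝ) ≤
      J * (88 * x * L * 2 ^ (2 * B + 4) / L ^ (2 * B + 4)) := by
    have h1 : #((Ioc X0 Z).filter (fun m => Bad (2 * L) H m)) ≤
        #((Ioc X0 (2 ^ J * X0)).filter (fun m => Bad (2 * L) H m)) := by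
      apply card_le_card
      exact filter_subset_filter _ (Ioc_subset_Ioc_right hJ1)
    rw [dyadic_count] at h1
    have h2 : (#((Ioc X0 Z).filter (fun m => Bad (2 * L) H m)) : ℝ) ≤
        ∑ j ∈ range J, (#((Ioc (2 ^ j * X0) (2 * (2 ^ j * X0))).filter (fun m => Bad (2 * L) H m)) : ℝ) := by
      exact_mod_cast h1
    refine h2.trans ((sum_le_sum hblock).trans ?_)
    rw [sum_const, card_range, nsmul_eq_mul]
  refine hcount.trans ?_
  calc (J : ℝ) * (88 * x * L * 2 ^ (2 * B + 4) / L ^ (2 * B + 4)) ≤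
      (44 * L ^ (B + 2)) * (88 * x * L * 2 ^ (2 * B + 4) / L ^ (2 * B + 4)) := by
        apply mul_le_mul_of_nonneg_right hJL (by positivity)
    _ = (15488 * 2 ^ (2 * B + 4)) * (x / (4 * (L * L ^ B))) := by
        have h1 : L ^ (2 * B + 4) = L ^ (B + 2) * L * (L * L ^ B) := by ring
        rw [h1]
        field_simp
        ring
    _ ≤ L * (x / (4 * (L * L ^ B))) := by
        apply mul_le_mul_of_nonneg_right hL2 (by positivity)
    _ = x / (4 * L ^ B) := by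
        field_simp

end Pool.Agent.V8H10.GS
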